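import Pool.Agent.X134.KC.Riemann

/-!
# The angles between neighbouring points of the weighted moment curve
-/

set_option autoImplicit false
open MeasureTheory Filter Topology Set

namespace Pool.Agent.X134.KC

noncomputable def WA (s : ℕ → ℝ) (n : ℕ) (x : ℝ) : ℝ := ∑ j ∈ Finset.range (n + 1), (s j * x ^ j) ^ 2
noncomputable def WB (s : ℕ → ℝ) (n : ℕ) (x : ℝ) : ℝ :=
  ∑ j ∈ Finset.range (n + 1), (s j * x ^ j) * (s j * ((j : ℝ) * x ^ (j - 1)))
noncomputable def WC (s : ℕ → ℝ) (n : ℕ) (x : ℝ) : ℝ :=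
  ∑ j ∈ Finset.range (n + 1), (s j * ((j : ℝ) * x ^ (j - 1))) ^ 2
noncomputable def WI (s : ℕ → ℝ) (n : ℕ) (x y : ℝ) : ℝ :=
  ∑ j ∈ Finset.range (n + 1), (s j * x ^ j) * (s j * y ^ j)

/-- the divided difference of `x ^ j y ^ k - x ^ k y ^ j`, up to the sign -/
noncomputable def Q (j k : ℕ) (x y : ℝ) : ℝ :=
  (x * y) ^ (min j k) * ∑ i ∈ Finset.range (max j k - min j k),
    y ^ i * x ^ (max j k - min j k - 1 - i)

lemma Q_comm (j k : ℕ) (x y : ℝ) : Q j k x y = Q k j x y := by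
  unfold Q
  rw [min_comm, max_comm]

lemma Q_mul_aux {j k : ℕ} (h : j ≤ k) (x y : ℝ) :
    x ^ j * y ^ k - x ^ k * y ^ j = (y - x) * Q j k x y := by
  unfold Q
  rw [min_eq_left h, max_eq_right h]
  have h1 := geom_sum₂_mul y x (k - j)
  obtain ⟨d, rfl⟩ := Nat.exists_eq_add_of_le h
  rw [Nat.add_sub_cancel_left] at h1 ⊢
  have h2 : (y - x) * ((x * y) ^ j * ∑ i ∈ Finset.range d, y ^ i * x ^ (d - 1 - i)) =
      (x * y) ^ j * ((∑ i ∈ Finset.range d, y ^ i * x ^ (d - 1 - i)) * (y - x)) := by ring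
  rw [h2, h1, mul_pow, pow_add, pow_add]
  ring

lemma Q_mul (j k : ℕ) (x y : ℝ) :
    (x ^ j * y ^ k - x ^ k * y ^ j) ^ 2 = (y - x) ^ 2 * Q j k x y ^ 2 := by
  rcases le_total j k with h | h
  · rw [Q_mul_aux h, mul_pow]
  · have := Q_mul_aux h x y
    have h2 : x ^ j * y ^ k - x ^ k * y ^ j = -(x ^ k * y ^ j - x ^ j * y ^ k) := by ring
    rw [h2, this, neg_sq, mul_pow, Q_comm]

lemma Q_diag_aux {j k : ℕ} (h : j ≤ k) (x : ℝ) :
    x ^ j * ((k : ℝ) * x ^ (k - 1)) - x ^ k * ((j : ℝ) * x ^ (j - 1)) = Q j k x x := by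
  unfold Q
  rw [min_eq_left h, max_eq_right h]
  obtain ⟨d, rfl⟩ := Nat.exists_eq_add_of_le h
  rw [Nat.add_sub_cancel_left]
  rcases Nat.eq_zero_or_pos d with rfl | hd
  · simp
  · have h1 : ∑ i ∈ Finset.range d, x ^ i * x ^ (d - 1 - i) = d * x ^ (d - 1) := by
      rw [Finset.sum_congr rfl (g := fun _ => x ^ (d - 1)), Finset.sum_const, Finset.card_range,
        nsmul_eq_mul]
      intro i hi
      have := Finset.mem_range.1 hi
      rw [← pow_add]
      congr 1
      omega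
    rw [h1]
    rcases Nat.eq_zero_or_pos j with rfl | hj
    · simp
    · obtain ⟨e, rfl⟩ := Nat.exists_eq_succ_of_ne_zero hj.ne'
      obtain ⟨f, rfl⟩ := Nat.exists_eq_succ_of_ne_zero hd.ne'
      have e1 : e.succ + f.succ - 1 = e + f + 1 := by omega
      have e2 : e.succ - 1 = e := by omega
      have e3 : f.succ - 1 = f := by omega
      rw [e1, e2, e3]
      push_cast
      rw [mul_pow]
      simp only [pow_succ, pow_add]
      ring

lemma Q_diag (j k : ℕ) (x : ℝ) :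
    (x ^ j * ((k : ℝ) * x ^ (k - 1)) - x ^ k * ((j : ℝ) * x ^ (j - 1))) ^ 2 = Q j k x x ^ 2 := by
  rcases le_total j k with h | h
  · rw [Q_diag_aux h]
  · have := Q_diag_aux h x
    have h2 : x ^ j * ((k : ℝ) * x ^ (k - 1)) - x ^ k * ((j : ℝ) * x ^ (j - 1)) =
      -(x ^ k * ((j : ℝ) * x ^ (j - 1)) - x ^ j * ((k : ℝ) * x ^ (k - 1))) := by ring
    rw [h2, this, neg_sq, Q_comm]

lemma Q_cont (j k : ℕ) : Continuous fun p : ℝ × ℝ => Q j k p.1 p.2 := by
  unfold Q
  fun_prop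

/-- Lagrange's identity -/
lemma lagrange (m : ℕ) (u v : ℕ → ℝ) :
    (∑ j ∈ Finset.range m, u j ^ 2) * (∑ j ∈ Finset.range m, v j ^ 2) -
      (∑ j ∈ Finset.range m, u j * v j) ^ 2 =
      1 / 2 * ∑ j ∈ Finset.range m, ∑ k ∈ Finset.range m, (u j * v k - u k * v j) ^ 2 := by
  have h1 : ∑ j ∈ Finset.range m, ∑ k ∈ Finset.range m, (u j * v k - u k * v j) ^ 2 =
      ∑ j ∈ Finset.range m, ∑ k ∈ Finset.range m, u j ^ 2 * v k ^ 2 +
      ∑ j ∈ Finset.range m, ∑ k ∈ Finset.range m, v j ^ 2 * u k ^ 2 -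
      2 * ∑ j ∈ Finset.range m, ∑ k ∈ Finset.range m, (u j * v j) * (u k * v k) := by
    rw [Finset.mul_sum, ← Finset.sum_add_distrib, ← Finset.sum_sub_distrib]
    refine Finset.sum_congr rfl fun j _ => ?_
    rw [Finset.mul_sum, ← Finset.sum_add_distrib, ← Finset.sum_sub_distrib]
    refine Finset.sum_congr rfl fun k _ => ?_
    ring
  rw [h1, ← Finset.sum_mul_sum, ← Finset.sum_mul_sum, ← Finset.sum_mul_sum]
  ring

noncomputable def WG (s : ℕ → ℝ) (n : ℕ) (x y : ℝ) : ℝ :=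
  1 / 2 * ∑ j ∈ Finset.range (n + 1), ∑ k ∈ Finset.range (n + 1), (s j * s k) ^ 2 * Q j k x y ^ 2

lemma WG_nonneg (s : ℕ → ℝ) (n : ℕ) (x y : ℝ) : 0 ≤ WG s n x y := by
  unfold WG
  positivity

lemma WG_eq (s : ℕ → ℝ) (n : ℕ) (x y : ℝ) :
    WA s n x * WA s n y - WI s n x y ^ 2 = (y - x) ^ 2 * WG s n x y := by
  unfold WA WI WG
  rw [lagrange (n + 1) (fun j => s j * x ^ j) (fun j => s j * y ^ j)]
  rw [mul_left_comm]
  congr 1
  rw [Finset.mul_sum]
  refine Finset.sum_congr rfl fun j _ => ?_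
  rw [Finset.mul_sum]
  refine Finset.sum_congr rfl fun k _ => ?_
  have := Q_mul j k x y
  have e : (y - x) ^ 2 * ((s j * s k) ^ 2 * Q j k x y ^ 2) =
      (s j * s k) ^ 2 * ((y - x) ^ 2 * Q j k x y ^ 2) := by ring
  rw [e, ← this]
  ring

lemma WG_diag (s : ℕ → ℝ) (n : ℕ) (x : ℝ) :
    WG s n x x = WA s n x * WC s n x - WB s n x ^ 2 := by
  unfold WA WB WC WG
  rw [lagrange (n + 1) (fun j => s j * x ^ j) (fun j => s j * ((j : ℝ) * x ^ (j - 1)))]
  congr 1
  refine Finset.sum_congr rfl fun j _ => ?_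
  refine Finset.sum_congr rfl fun k _ => ?_
  rw [← Q_diag]
  ring

section pos
variable {s : ℕ → ℝ} (hs : s 0 ≠ 0) (n : ℕ)
include hs

lemma WA_pos (x : ℝ) : 0 < WA s n x := by
  unfold WA
  rw [Finset.sum_range_succ']
  have : 0 < (s 0 * x ^ 0) ^ 2 := by
    rw [pow_zero, mul_one]
    positivity
  have h2 : 0 ≤ ∑ k ∈ Finset.range n, (s (k + 1) * x ^ (k + 1)) ^ 2 := by positivity
  linarith

end pos

lemma WA_cont (s : ℕ → ℝ) (n : ℕ) : Continuous (WA s n) := by
  unfold WA; fun_prop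
lemma WB_cont (s : ℕ → ℝ) (n : ℕ) : Continuous (WB s n) := by
  unfold WB; fun_prop
lemma WC_cont (s : ℕ → ℝ) (n : ℕ) : Continuous (WC s n) := by
  unfold WC; fun_prop
lemma WI_cont (s : ℕ → ℝ) (n : ℕ) : Continuous fun p : ℝ × ℝ => WI s n p.1 p.2 := by
  unfold WI; fun_prop
lemma WG_cont (s : ℕ → ℝ) (n : ℕ) : Continuous fun p : ℝ × ℝ => WG s n p.1 p.2 := by
  unfold WG
  refine continuous_const.mul (continuous_finsetSum _ fun j _ => continuous_finsetSum _ fun k _ => ?_)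
  exact continuous_const.mul ((Q_cont j k).pow 2)

/-- the cosine of the angle -/
noncomputable def kap (s : ℕ → ℝ) (n : ℕ) (x y : ℝ) : ℝ :=
  WI s n x y / (Real.sqrt (WA s n x) * Real.sqrt (WA s n y))

/-- the angle -/
noncomputable def ang (s : ℕ → ℝ) (n : ℕ) (x y : ℝ) : ℝ := Real.arccos (kap s n x y)

/-- the speed -/
noncomputable def HH (s : ℕ → ℝ) (n : ℕ) (x y : ℝ) : ℝ :=
  Real.sqrt (WG s n x y) / (Real.sqrt (WA s n x) * Real.sqrt (WA s n y))

/-- the density of the real zeros -/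
noncomputable def rhoW (s : ℕ → ℝ) (n : ℕ) (x : ℝ) : ℝ :=
  Real.sqrt (WA s n x * WC s n x - WB s n x ^ 2) / WA s n x

section main
variable {s : ℕ → ℝ} (hs : s 0 ≠ 0) (n : ℕ)
include hs

lemma kap_sq (x y : ℝ) : 1 - kap s n x y ^ 2 = ((y - x) * HH s n x y) ^ 2 := by
  have hx := WA_pos hs n x
  have hy := WA_pos hs n y
  unfold kap HH
  rw [div_pow, mul_pow, mul_pow, div_pow, mul_pow, Real.sq_sqrt hx.le, Real.sq_sqrt hy.le,
    Real.sq_sqrt (WG_nonneg s n x y), ← mul_div_assoc, ← WG_eq]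
  field_simp

lemma kap_diag (x : ℝ) : kap s n x x = 1 := by
  have hx := WA_pos hs n x
  unfold kap
  rw [Real.mul_self_sqrt hx.le]
  have : WI s n x x = WA s n x := by
    unfold WI WA
    refine Finset.sum_congr rfl fun j _ => ?_
    ring
  rw [this, div_self hx.ne']

lemma HH_diag (x : ℝ) : HH s n x x = rhoW s n x := by
  have hx := WA_pos hs n x
  unfold HH rhoW
  rw [Real.mul_self_sqrt hx.le, WG_diag]

lemma kap_le_one (x y : ℝ) : kap s n x y ≤ 1 := by
  have := kap_sq hs n x y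
  nlinarith [sq_nonneg ((y - x) * HH s n x y)]

lemma neg_one_le_kap (x y : ℝ) : -1 ≤ kap s n x y := by
  have := kap_sq hs n x y
  nlinarith [sq_nonneg ((y - x) * HH s n x y)]

omit hs in
lemma HH_nonneg (x y : ℝ) : 0 ≤ HH s n x y := by
  unfold HH
  positivity

lemma sin_ang {x y : ℝ} (hxy : x ≤ y) : Real.sin (ang s n x y) = (y - x) * HH s n x y := by
  unfold ang
  rw [Real.sin_arccos, kap_sq hs n x y, Real.sqrt_sq]
  exact mul_nonneg (by linarith) (HH_nonneg n x y)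

lemma cos_ang (x y : ℝ) : Real.cos (ang s n x y) = kap s n x y :=
  Real.cos_arccos (neg_one_le_kap hs n x y) (kap_le_one hs n x y)

lemma ang_lower {x y : ℝ} (hxy : x ≤ y) : (y - x) * HH s n x y ≤ ang s n x y := by
  rw [← sin_ang hs n hxy]
  exact Real.sin_le (Real.arccos_nonneg _)

lemma ang_upper {x y : ℝ} (hxy : x ≤ y) (hk : 0 < kap s n x y) :
    ang s n x y ≤ (y - x) * (HH s n x y / kap s n x y) := by
  have h0 : 0 ≤ ang s n x y := Real.arccos_nonneg _
  have h1 : ang s n x y < Real.pi / 2 := by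
    unfold ang
    rw [Real.arccos_lt_pi_div_two]
    exact hk
  have h2 := Real.le_tan h0 h1
  rw [Real.tan_eq_sin_div_cos, sin_ang hs n hxy, cos_ang hs n] at h2
  rw [← mul_div_assoc]
  exact h2

lemma kap_cont : Continuous fun p : ℝ × ℝ => kap s n p.1 p.2 := by
  unfold kap
  refine (WI_cont s n).div ?_ ?_
  · exact (((WA_cont s n).comp continuous_fst).sqrt).mul (((WA_cont s n).comp continuous_snd).sqrt)
  · intro p
    have h1 := Real.sqrt_pos.2 (WA_pos hs n p.1)
    have h2 := Real.sqrt_pos.2 (WA_pos hs n p.2)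
    positivity

lemma HH_cont : Continuous fun p : ℝ × ℝ => HH s n p.1 p.2 := by
  unfold HH
  refine ((WG_cont s n).sqrt).div ?_ ?_
  · exact (((WA_cont s n).comp continuous_fst).sqrt).mul (((WA_cont s n).comp continuous_snd).sqrt)
  · intro p
    have h1 := Real.sqrt_pos.2 (WA_pos hs n p.1)
    have h2 := Real.sqrt_pos.2 (WA_pos hs n p.2)
    positivity

lemma rhoW_cont : Continuous (rhoW s n) := by
  unfold rhoW
  refine ((((WA_cont s n).mul (WC_cont s n)).sub ((WB_cont s n).pow 2)).sqrt).div (WA_cont s n) ?_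
  intro x
  exact (WA_pos hs n x).ne'

/-- **The length of the curve.** -/
theorem ang_sum {a b : ℝ} (hab : a < b) :
    Tendsto (fun N : ℕ => ∑ i ∈ Finset.range N, ang s n (pt a b N i) (pt a b N (i + 1)))
      atTop (𝓝 (∫ x in a..b, rhoW s n x)) := by
  have l1 := riemann (h := HH s n) hab (HH_cont hs n).continuousOn
  have l2 := riemann (h := fun x y => HH s n x y / max (kap s n x y) (1 / 2)) hab
    (by
      refine ((HH_cont hs n).div ((kap_cont hs n).max continuous_const) ?_).continuousOn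
      intro p
      exact (lt_of_lt_of_le (by norm_num) (le_max_right _ _)).ne')
  have e1 : (∫ x in a..b, HH s n x x) = ∫ x in a..b, rhoW s n x := by
    refine intervalIntegral.integral_congr fun x _ => ?_
    exact HH_diag hs n x
  have e2 : (∫ x in a..b, HH s n x x / max (kap s n x x) (1 / 2)) = ∫ x in a..b, rhoW s n x := by
    refine intervalIntegral.integral_congr fun x _ => ?_
    show HH s n x x / max (kap s n x x) (1 / 2) = rhoW s n x
    rw [kap_diag hs n, max_eq_left (by norm_num), div_one, HH_diag hs n x]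
  rw [e1] at l1
  rw [e2] at l2
  have hk := near_diag (h := kap s n) hab (kap_cont hs n).continuousOn
    (show (0 : ℝ) < 1 / 2 by norm_num)
  refine tendsto_of_tendsto_of_tendsto_of_le_of_le' l1 l2 ?_ ?_
  · refine Eventually.of_forall fun N => Finset.sum_le_sum fun i hi => ?_
    rw [← pt_succ_sub]
    exact ang_lower hs n (pt_mono hab.le (Nat.le_succ i))
  · filter_upwards [hk] with N hN
    refine Finset.sum_le_sum fun i hi => ?_
    have h1 := hN i (Finset.mem_range.1 hi) (pt a b N i)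
      ⟨le_rfl, pt_mono hab.le (Nat.le_succ i)⟩
    rw [kap_diag hs n, abs_lt] at h1
    have h2 : 1 / 2 ≤ kap s n (pt a b N i) (pt a b N (i + 1)) := by linarith [h1.1]
    rw [max_eq_left h2, ← pt_succ_sub]
    exact ang_upper hs n (pt_mono hab.le (Nat.le_succ i)) (by linarith)

end main

end Pool.Agent.X134.KC
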