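import Pool.Agent.X134.KC.Lim

/-!
# The integral of the second order coefficient
-/

set_option autoImplicit false
open MeasureTheory ProbabilityTheory Filter Topology Set

namespace Pool.Agent.X134.KC

/-- the second order coefficient of the density -/
noncomputable def Phi (q : ℝ) : ℝ :=
  (1 + 2 * q - 10 * q ^ 2 + 2 * q ^ 3 + q ^ 4) / (4 * (1 + q) ^ 5)

/-- the lower bound of the density -/
noncomputable def hh (τ x : ℝ) : ℝ := 1 / (1 - x ^ 2) + τ ^ 2 * Phi (x ^ 2) - 20 * τ ^ 3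

lemma gInf_ge {τ q : ℝ} (hτ : 0 ≤ τ) (h0 : 0 ≤ q) (h1 : q < 1) :
    1 / (1 - q) + τ ^ 2 * Phi q - 20 * τ ^ 3 ≤ gInf τ q := by
  have e1 : (0 : ℝ) < 1 - q := by linarith
  have e2 : (0 : ℝ) < 1 + q := by linarith
  have e : gInf τ q = 1 / (1 - q) + τ ^ 2 * Phi q - 10 * τ ^ 3 *
      (1 / (1 + q) * (1 + (q ^ 4 - 4 * q ^ 3 + 14 * q ^ 2 - 4 * q + 1) / (1 + q) ^ 4)) := by
    unfold gInf Phi
    field_simp
    ring
  rw [e]
  have h2 : (q ^ 4 - 4 * q ^ 3 + 14 * q ^ 2 - 4 * q + 1) / (1 + q) ^ 4 ≤ 1 := by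
    rw [div_le_one (by positivity)]
    have h3 : (1 + q) ^ 4 - (q ^ 4 - 4 * q ^ 3 + 14 * q ^ 2 - 4 * q + 1) =
        8 * q * (1 - q + q ^ 2) := by ring
    have h4 : 0 ≤ 8 * q * (1 - q + q ^ 2) := by
      have : 0 ≤ 1 - q + q ^ 2 := by nlinarith
      positivity
    linarith
  have h2' : 0 ≤ (q ^ 4 - 4 * q ^ 3 + 14 * q ^ 2 - 4 * q + 1) / (1 + q) ^ 4 := by
    refine div_nonneg ?_ (by positivity)
    have : q ^ 4 - 4 * q ^ 3 + 14 * q ^ 2 - 4 * q + 1 =
        (q ^ 2 - 2 * q) ^ 2 + 10 * (q - 1 / 5) ^ 2 + 3 / 5 := by ring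
    rw [this]
    positivity
  have h5 : 1 / (1 + q) ≤ 1 := by
    rw [div_le_one e2]; linarith
  have h6 : 1 / (1 + q) * (1 + (q ^ 4 - 4 * q ^ 3 + 14 * q ^ 2 - 4 * q + 1) / (1 + q) ^ 4) ≤
      1 * 2 := mul_le_mul h5 (by linarith) (by linarith) zero_le_one
  have h7 : 0 ≤ 10 * τ ^ 3 := by positivity
  nlinarith [mul_le_mul_of_nonneg_left h6 h7]

lemma Phi_bd {q : ℝ} (h0 : 0 ≤ q) (h1 : q ≤ 1) : -4 ≤ Phi q := by
  unfold Phi
  rw [le_div_iff₀ (by positivity)]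
  have h5 : 1 ≤ (1 + q) ^ 5 := one_le_pow₀ (by linarith)
  have h2 : q ^ 2 ≤ 1 := by nlinarith
  have h3 : 0 ≤ q ^ 3 := by positivity
  have h4 : 0 ≤ q ^ 4 := by positivity
  nlinarith

lemma hh_nonneg {τ x : ℝ} (hτ0 : 0 ≤ τ) (hτ : τ ≤ 1 / 8) (h0 : 0 ≤ x) (h1 : x < 1) :
    0 ≤ hh τ x := by
  unfold hh
  have hq0 : 0 ≤ x ^ 2 := sq_nonneg x
  have hq1 : x ^ 2 < 1 := by nlinarith
  have e1 : 1 ≤ 1 / (1 - x ^ 2) := by
    rw [le_div_iff₀ (by linarith)]
    linarith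
  have e2 := Phi_bd hq0 hq1.le
  have e3 : τ ^ 2 ≤ 1 / 64 := by nlinarith
  have e4 : τ ^ 3 ≤ 1 / 512 := by
    have := pow_le_pow_left₀ hτ0 hτ 3
    norm_num at this
    exact this
  have e5 : -(1 / 16) ≤ τ ^ 2 * Phi (x ^ 2) := by
    have := mul_le_mul_of_nonneg_left e2 (sq_nonneg τ)
    nlinarith
  linarith

/-- a primitive of `Phi (x ^ 2)` -/
noncomputable def FP (x : ℝ) : ℝ :=
  15 / 128 * Real.arctan x + 5 / 32 * (x * (1 - x ^ 2) / (1 + x ^ 2) ^ 2) -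
    3 / 128 * (x * (1 - x ^ 2) * (1 - 6 * x ^ 2 + x ^ 4) / (1 + x ^ 2) ^ 4)

lemma FP_deriv (x : ℝ) : HasDerivAt FP (Phi (x ^ 2)) x := by
  have hp : (1 : ℝ) + x ^ 2 ≠ 0 := by positivity
  have d1 : HasDerivAt (fun x : ℝ => x * (1 - x ^ 2)) (1 - 3 * x ^ 2) x := by
    have := (hasDerivAt_id x).mul ((hasDerivAt_pow 2 x).const_sub 1)
    refine this.congr_deriv ?_
    simp only [id]
    push_cast
    ring
  have d2 : HasDerivAt (fun x : ℝ => 1 + x ^ 2) (2 * x) x := by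
    have := (hasDerivAt_pow 2 x).const_add 1
    refine this.congr_deriv ?_
    push_cast
    ring
  have d3 : HasDerivAt (fun x : ℝ => 1 - 6 * x ^ 2 + x ^ 4) (-(12 * x) + 4 * x ^ 3) x := by
    have := (((hasDerivAt_pow 2 x).const_mul 6).const_sub 1).add (hasDerivAt_pow 4 x)
    refine this.congr_deriv ?_
    push_cast
    ring
  have e1 := (Real.hasDerivAt_arctan x).const_mul (15 / 128 : ℝ)
  have e2 := ((d1.div (d2.pow 2) (pow_ne_zero 2 hp))).const_mul (5 / 32 : ℝ)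
  have e3 := (((d1.mul d3).div (d2.pow 4) (pow_ne_zero 4 hp))).const_mul (3 / 128 : ℝ)
  have h := (e1.add e2).sub e3
  refine h.congr_deriv ?_
  unfold Phi
  simp only [Pi.mul_apply, Pi.pow_apply]
  field_simp
  ring

lemma Phi_cont : Continuous fun x : ℝ => Phi (x ^ 2) := by
  unfold Phi
  refine Continuous.div (by fun_prop) (by fun_prop) fun x => ?_
  positivity

lemma int_Phi (r : ℝ) : ∫ x in (0 : ℝ)..r, Phi (x ^ 2) = FP r := by
  rw [intervalIntegral.integral_eq_sub_of_hasDerivAt (fun x _ => FP_deriv x)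
    (Phi_cont.intervalIntegrable _ _)]
  have : FP 0 = 0 := by simp [FP]
  rw [this, sub_zero]

lemma FP_one : FP 1 = 15 * Real.pi / 512 := by
  unfold FP
  rw [Real.arctan_one]
  norm_num
  ring

lemma FP_lim : Tendsto FP (𝓝[<] 1) (𝓝 (15 * Real.pi / 512)) := by
  rw [← FP_one]
  exact ((FP_deriv 1).continuousAt.tendsto).mono_left nhdsWithin_le_nhds

lemma int_inv (r : ℝ) (h0 : 0 ≤ r) (h1 : r < 1) :
    ∫ x in (0 : ℝ)..r, 1 / (1 - x ^ 2) = 1 / 2 * Real.log ((1 + r) / (1 - r)) := by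
  have hd : ∀ x ∈ Set.uIcc 0 r, HasDerivAt
      (fun x => 1 / 2 * (Real.log (1 + x) - Real.log (1 - x))) (1 / (1 - x ^ 2)) x := by
    intro x hx
    rw [Set.uIcc_of_le h0] at hx
    have e1 : 0 < 1 + x := by linarith [hx.1]
    have e2 : 0 < 1 - x := by linarith [hx.2]
    have d1 : HasDerivAt (fun x => Real.log (1 + x)) (1 / (1 + x)) x :=
      ((hasDerivAt_id x).const_add 1).log e1.ne'
    have d2 : HasDerivAt (fun x => Real.log (1 - x)) (-1 / (1 - x)) x :=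
      ((hasDerivAt_id x).const_sub 1).log e2.ne'
    refine HasDerivAt.congr_deriv ((d1.sub d2).const_mul (1 / 2)) ?_
    have e3 : 1 - x ^ 2 = (1 + x) * (1 - x) := by ring
    rw [e3]
    field_simp
    ring
  rw [intervalIntegral.integral_eq_sub_of_hasDerivAt hd]
  · rw [Real.log_div (by linarith) (by linarith)]
    simp
  · apply ContinuousOn.intervalIntegrable
    intro x hx
    rw [Set.uIcc_of_le h0] at hx
    have e1 : 0 < 1 - x ^ 2 := by nlinarith [hx.1, hx.2]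
    apply ContinuousAt.continuousWithinAt
    apply ContinuousAt.div continuousAt_const (by fun_prop)
    positivity

lemma hh_contOn (τ : ℝ) {r : ℝ} (h0 : 0 ≤ r) (h1 : r < 1) : ContinuousOn (hh τ) (Set.uIcc 0 r) := by
  intro x hx
  rw [Set.uIcc_of_le h0] at hx
  have e1 : 0 < 1 - x ^ 2 := by nlinarith [hx.1, hx.2]
  apply ContinuousAt.continuousWithinAt
  have a1 : ContinuousAt (fun x : ℝ => 1 / (1 - x ^ 2)) x :=
    ContinuousAt.div continuousAt_const (by fun_prop) e1.ne'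
  have a2 : ContinuousAt (fun x : ℝ => τ ^ 2 * Phi (x ^ 2)) x :=
    (Phi_cont.const_mul _).continuousAt
  exact (a1.add a2).sub continuousAt_const

lemma int_hh (τ r : ℝ) (h0 : 0 ≤ r) (h1 : r < 1) :
    ∫ x in (0 : ℝ)..r, hh τ x =
      1 / 2 * Real.log ((1 + r) / (1 - r)) + τ ^ 2 * FP r - 20 * τ ^ 3 * r := by
  have i1 : IntervalIntegrable (fun x : ℝ => 1 / (1 - x ^ 2)) volume 0 r := by
    apply ContinuousOn.intervalIntegrable
    intro x hx
    rw [Set.uIcc_of_le h0] at hx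
    have e1 : 0 < 1 - x ^ 2 := by nlinarith [hx.1, hx.2]
    apply ContinuousAt.continuousWithinAt
    apply ContinuousAt.div continuousAt_const (by fun_prop)
    positivity
  have i2 : IntervalIntegrable (fun x : ℝ => τ ^ 2 * Phi (x ^ 2)) volume 0 r :=
    (Phi_cont.const_mul _).intervalIntegrable _ _
  unfold hh
  rw [intervalIntegral.integral_sub (i1.add i2) intervalIntegrable_const,
    intervalIntegral.integral_add i1 i2, int_inv r h0 h1, intervalIntegral.integral_const_mul,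
    int_Phi, intervalIntegral.integral_const, smul_eq_mul]
  ring

end Pool.Agent.X134.KC
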