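import Pool.Agent.X134.KC.Riemann
import Pool.Agent.Helper764.KacA1

/-!
# Changes of sign and zeros
-/

set_option autoImplicit false
open MeasureTheory ProbabilityTheory Filter Topology Set
open scoped ENNReal NNReal
open Kac764

namespace Pool.Agent.X134.KC

open Classical in
/-- the number of changes of sign along the partition -/
noncomputable def SC (n : ℕ) (a b : ℝ) (N : ℕ) (ω : ℕ → ℝ) : ℕ :=
  ((Finset.range N).filter fun i => D0 n ω (pt a b N i) * D0 n ω (pt a b N (i + 1)) < 0).card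

lemma eval_kac (n : ℕ) (ω : ℕ → ℝ) (x : ℝ) : (kac n ω).eval x = D0 n ω x := by
  unfold kac D0
  simp [Polynomial.eval_finsetSum]

lemma D0_cont (n : ℕ) (ω : ℕ → ℝ) : Continuous (D0 n ω) := by
  unfold D0
  fun_prop

lemma D0_deriv (n : ℕ) (ω : ℕ → ℝ) (x : ℝ) : HasDerivAt (D0 n ω) (D1 n ω x) x :=
  G4.G4_deriv n ω x

lemma nz_eq (n : ℕ) (ω : ℕ → ℝ) (S : Set ℝ) (h : kac n ω ≠ 0) :
    nz (kac n ω) S = {x : ℝ | x ∈ S ∧ D0 n ω x = 0}.ncard := by
  unfold nz
  congr 1
  ext x
  show (x ∈ S ∧ kac n ω ≠ 0 ∧ (kac n ω).eval x = 0) ↔ (x ∈ S ∧ D0 n ω x = 0)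
  rw [eval_kac]
  tauto

lemma zeros_fin (n : ℕ) (ω : ℕ → ℝ) (S : Set ℝ) (h : kac n ω ≠ 0) :
    {x : ℝ | x ∈ S ∧ D0 n ω x = 0}.Finite := by
  refine ((kac n ω).roots.toFinset.finite_toSet).subset fun x hx => ?_
  simp only [Finset.mem_coe, Multiset.mem_toFinset]
  rw [Polynomial.mem_roots h]
  show (kac n ω).eval x = 0
  rw [eval_kac]
  exact hx.2

lemma kac_ne (n : ℕ) (ω : ℕ → ℝ) {x : ℝ} (h : D0 n ω x ≠ 0) : kac n ω ≠ 0 := by
  intro h0
  apply h
  rw [← eval_kac, h0, Polynomial.eval_zero]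

/-- every change of sign gives a zero -/
lemma SC_le (n : ℕ) {a b : ℝ} (hab : a < b) (N : ℕ) (ω : ℕ → ℝ) :
    SC n a b N ω ≤ nz (kac n ω) (Ioo a b) := by
  classical
  unfold SC
  rcases Finset.eq_empty_or_nonempty ((Finset.range N).filter fun i =>
      D0 n ω (pt a b N i) * D0 n ω (pt a b N (i + 1)) < 0) with he | ⟨i₀, hi₀⟩
  · rw [he]
    simp
  have hne : kac n ω ≠ 0 := by
    have h1 := (Finset.mem_filter.1 hi₀).2
    refine kac_ne n ω (x := pt a b N i₀) fun h => ?_
    rw [h, zero_mul] at h1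
    exact lt_irrefl _ h1
  rw [nz_eq n ω _ hne]
  have hz : ∀ i ∈ (Finset.range N).filter fun i =>
      D0 n ω (pt a b N i) * D0 n ω (pt a b N (i + 1)) < 0,
      ∃ z ∈ Ioo (pt a b N i) (pt a b N (i + 1)), D0 n ω z = 0 := by
    intro i hi
    have h1 := (Finset.mem_filter.1 hi).2
    have hle := pt_mono hab.le (N := N) (Nat.le_succ i)
    rcases mul_neg_iff.1 h1 with ⟨hp, hq⟩ | ⟨hp, hq⟩
    · exact intermediate_value_Ioo' hle (D0_cont n ω).continuousOn ⟨hq, hp⟩
    · exact intermediate_value_Ioo hle (D0_cont n ω).continuousOn ⟨hp, hq⟩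
  choose! z hz1 hz2 using hz
  have hN : 0 < N := lt_of_le_of_lt (Nat.zero_le _) (Finset.mem_range.1 (Finset.mem_filter.1 hi₀).1)
  rw [← Set.ncard_coe_finset]
  refine Set.ncard_le_ncard_of_injOn z ?_ ?_ (zeros_fin n ω _ hne)
  · intro i hi
    have hi' := Finset.mem_coe.1 hi
    have hr := Finset.mem_range.1 (Finset.mem_filter.1 hi').1
    have h1 := hz1 i hi'
    refine ⟨⟨?_, ?_⟩, hz2 i hi'⟩
    · exact lt_of_le_of_lt (pt_mem hab.le hN hr.le).1 h1.1
    · exact lt_of_lt_of_le h1.2 (pt_mem hab.le hN hr).2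
  · have aux : ∀ i j : ℕ, i < j →
        i ∈ (Finset.range N).filter (fun i =>
          D0 n ω (pt a b N i) * D0 n ω (pt a b N (i + 1)) < 0) →
        j ∈ (Finset.range N).filter (fun i =>
          D0 n ω (pt a b N i) * D0 n ω (pt a b N (i + 1)) < 0) → z i < z j := by
      intro i j hij hi hj
      exact ((hz1 i hi).2.trans_le (pt_mono hab.le hij)).trans (hz1 j hj).1
    intro i hi j hj hij
    rcases lt_trichotomy i j with h | h | h
    · exact absurd hij (aux i j h hi hj).ne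
    · exact h
    · exact absurd hij.symm (aux j i h hj hi).ne

/-- the index of the interval of the partition which contains `z` -/
noncomputable def idx (a b : ℝ) (N : ℕ) (z : ℝ) : ℕ := ⌊(z - a) / (b - a) * N⌋₊

lemma idx_spec {a b : ℝ} (hab : a < b) {N : ℕ} (hN : 0 < N) {z : ℝ} (hz : z ∈ Ioo a b) :
    idx a b N z < N ∧ pt a b N (idx a b N z) ≤ z ∧ z < pt a b N (idx a b N z + 1) := by
  have hN0 : (0 : ℝ) < N := by exact_mod_cast hN
  have hba : 0 < b - a := by linarith
  have h0 : 0 ≤ (z - a) / (b - a) * N := by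
    have : 0 < z - a := by linarith [hz.1]
    positivity
  have h1 : (z - a) / (b - a) * N < N := by
    have : (z - a) / (b - a) < 1 := by
      rw [div_lt_one hba]
      linarith [hz.2]
    nlinarith
  have f1 := Nat.floor_le h0
  have f2 := Nat.lt_floor_add_one ((z - a) / (b - a) * N)
  refine ⟨?_, ?_, ?_⟩
  · unfold idx
    rw [Nat.floor_lt h0]
    exact h1
  · unfold pt idx
    have h3 : (⌊(z - a) / (b - a) * N⌋₊ : ℝ) / N ≤ (z - a) / (b - a) := by
      rw [div_le_iff₀ hN0]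
      exact f1
    have h4 := mul_le_mul_of_nonneg_left h3 hba.le
    rw [mul_div_cancel₀ _ hba.ne'] at h4
    linarith
  · unfold pt idx
    push_cast
    have h3 : (z - a) / (b - a) < ((⌊(z - a) / (b - a) * N⌋₊ : ℝ) + 1) / N := by
      rw [lt_div_iff₀ hN0]
      exact f2
    have h4 := mul_lt_mul_of_pos_left h3 hba
    rw [mul_div_cancel₀ _ hba.ne'] at h4
    linarith

/-- near a simple zero the sign changes -/
lemma sign_near (n : ℕ) (ω : ℕ → ℝ) {z : ℝ} (h0 : D0 n ω z = 0) (h1 : D1 n ω z ≠ 0) :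
    ∃ ε > 0, ∀ y y' : ℝ, y < z → z < y' → z - y < ε → y' - z < ε → D0 n ω y * D0 n ω y' < 0 := by
  have hd := (hasDerivAt_iff_tendsto_slope.1 (D0_deriv n ω z)).mul_const (D1 n ω z)
  have hpos : 0 < D1 n ω z * D1 n ω z := mul_self_pos.2 h1
  have hev := hd.eventually (lt_mem_nhds hpos)
  rw [eventually_nhdsWithin_iff, Metric.eventually_nhds_iff] at hev
  obtain ⟨ε, hε, H⟩ := hev
  refine ⟨ε, hε, fun y y' hy hy' hye hye' => ?_⟩
  have a1 := H (y := y) (by rw [Real.dist_eq, abs_lt]; constructor <;> linarith)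
    (by simp [hy.ne])
  have a2 := H (y := y') (by rw [Real.dist_eq, abs_lt]; constructor <;> linarith)
    (by simp [hy'.ne'])
  rw [slope_def_field, h0, sub_zero] at a1 a2
  have b1 : 0 < (z - y) := by linarith
  have b2 : 0 < (y' - z) := by linarith
  have c1 : D0 n ω y * D1 n ω z < 0 := by
    have e : D0 n ω y * D1 n ω z = -((D0 n ω y / (y - z) * D1 n ω z) * (z - y)) := by
      have : y - z ≠ 0 := by linarith
      field_simp
      ring
    rw [e]
    have := mul_pos a1 b1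
    linarith
  have c2 : 0 < D0 n ω y' * D1 n ω z := by
    have e : D0 n ω y' * D1 n ω z = (D0 n ω y' / (y' - z) * D1 n ω z) * (y' - z) := by
      have : y' - z ≠ 0 := by linarith
      field_simp
    rw [e]
    exact mul_pos a2 b2
  have c3 := mul_neg_of_neg_of_pos c1 c2
  have e : D0 n ω y * D1 n ω z * (D0 n ω y' * D1 n ω z) =
      (D0 n ω y * D0 n ω y') * (D1 n ω z * D1 n ω z) := by ring
  rw [e] at c3
  by_contra hcon
  push Not at hcon
  have := mul_nonneg hcon hpos.le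
  linarith

/-- for fine partitions every zero gives a change of sign -/
lemma SC_ge (n : ℕ) {a b : ℝ} (hab : a < b) (ω : ℕ → ℝ)
    (hp : ∀ N i : ℕ, D0 n ω (pt a b N i) ≠ 0)
    (hd : ∀ x, D0 n ω x = 0 → D1 n ω x ≠ 0) :
    ∀ᶠ N : ℕ in atTop, nz (kac n ω) (Ioo a b) ≤ SC n a b N ω := by
  classical
  have hne : kac n ω ≠ 0 := kac_ne n ω (hp 0 0)
  rw [nz_eq n ω _ hne]
  have hfin := zeros_fin n ω (Ioo a b) hne
  have hba : 0 < b - a := by linarith
  have hmesh : Tendsto (fun N : ℕ => (b - a) / N) atTop (𝓝 0) :=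
    tendsto_const_div_atTop_nhds_zero_nat (b - a)
  choose! ε hε H using fun z (hz : z ∈ {x : ℝ | x ∈ Ioo a b ∧ D0 n ω x = 0}) =>
    sign_near n ω hz.2 (hd z hz.2)
  have ev1 : ∀ᶠ N : ℕ in atTop, ∀ z ∈ {x : ℝ | x ∈ Ioo a b ∧ D0 n ω x = 0},
      (b - a) / N < ε z := by
    rw [Filter.eventually_all_finite hfin]
    intro z hz
    exact hmesh.eventually (gt_mem_nhds (hε z hz))
  have ev2 : ∀ᶠ N : ℕ in atTop, ∀ z ∈ {x : ℝ | x ∈ Ioo a b ∧ D0 n ω x = 0},
      ∀ z' ∈ {x : ℝ | x ∈ Ioo a b ∧ D0 n ω x = 0}, z ≠ z' → (b - a) / N < |z - z'| := by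
    rw [Filter.eventually_all_finite hfin]
    intro z hz
    rw [Filter.eventually_all_finite hfin]
    intro z' hz'
    by_cases h : z = z'
    · exact Eventually.of_forall fun N h' => absurd h h'
    · filter_upwards [hmesh.eventually (gt_mem_nhds (abs_pos.2 (sub_ne_zero.2 h)))] with N hN _
      exact hN
  filter_upwards [ev1, ev2, eventually_ge_atTop 1] with N h1 h2 hN
  unfold SC
  rw [← Set.ncard_coe_finset]
  refine Set.ncard_le_ncard_of_injOn (idx a b N) ?_ ?_ (Finset.finite_toSet _)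
  · intro z hz
    obtain ⟨i1, i2, i3⟩ := idx_spec hab hN hz.1
    rw [Finset.mem_coe, Finset.mem_filter]
    refine ⟨Finset.mem_range.2 i1, ?_⟩
    have i4 : pt a b N (idx a b N z) < z := by
      refine lt_of_le_of_ne i2 fun h => ?_
      have := hp N (idx a b N z)
      rw [h] at this
      exact this hz.2
    have i5 := pt_succ_sub a b N (idx a b N z)
    have i6 := h1 z hz
    exact H z hz _ _ i4 i3 (by linarith) (by linarith)
  · intro z hz z' hz' hzz
    by_contra hcon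
    obtain ⟨i1, i2, i3⟩ := idx_spec hab hN hz.1
    obtain ⟨j1, j2, j3⟩ := idx_spec hab hN hz'.1
    rw [← hzz] at j2 j3
    have i5 := pt_succ_sub a b N (idx a b N z)
    have := h2 z hz z' hz' hcon
    have : |z - z'| < (b - a) / N := by
      rw [abs_lt]
      constructor <;> linarith
    linarith

end Pool.Agent.X134.KC
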