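import Pool.Agent.X134.KC.Second

/-!
# The density of the zeros and its mean over the signs
-/

set_option autoImplicit false
open MeasureTheory ProbabilityTheory Filter Topology Set
open scoped ENNReal NNReal

namespace Pool.Agent.X134.KC

/-- the normalising sum -/
noncomputable def A0 (n : ℕ) (x : ℝ) : ℝ := ∑ j : Fin (n + 1), (x ^ 2) ^ (j : ℕ)
/-- the weights -/
noncomputable def pw (n : ℕ) (x : ℝ) (j : Fin (n + 1)) : ℝ := (x ^ 2) ^ (j : ℕ) / A0 n x
/-- the mean -/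
noncomputable def mw (n : ℕ) (x : ℝ) : ℝ := ∑ j : Fin (n + 1), pw n x j * (j : ℕ)
/-- the centred positions -/
noncomputable def dw (n : ℕ) (x : ℝ) (j : Fin (n + 1)) : ℝ := (j : ℕ) - mw n x
/-- the variance -/
noncomputable def Vw (n : ℕ) (x : ℝ) : ℝ := ∑ j : Fin (n + 1), pw n x j * dw n x j ^ 2

section
variable (n : ℕ) {x : ℝ} (hx : 0 < x)
include hx

lemma A0_pos : 0 < A0 n x := by
  unfold A0
  exact Finset.sum_pos (fun j _ => by positivity) ⟨0, Finset.mem_univ _⟩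

lemma pw_pos (j : Fin (n + 1)) : 0 < pw n x j := by
  unfold pw
  have := A0_pos n hx
  positivity

lemma pw_sum : ∑ j, pw n x j = 1 := by
  unfold pw
  rw [← Finset.sum_div]
  exact div_self (A0_pos n hx).ne'

lemma pd_sum : ∑ j, pw n x j * dw n x j = 0 := by
  unfold dw
  simp only [mul_sub]
  rw [Finset.sum_sub_distrib, ← Finset.sum_mul, pw_sum n hx, one_mul]
  exact sub_self _

lemma Vw_pos (hn : 1 ≤ n) : 0 < Vw n x := by
  have h0 : ∀ j, 0 ≤ pw n x j * dw n x j ^ 2 := fun j =>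
    mul_nonneg (pw_pos n hx j).le (sq_nonneg _)
  unfold Vw
  refine lt_of_le_of_ne (Finset.sum_nonneg fun j _ => h0 j) fun h => ?_
  have h1 := (Finset.sum_eq_zero_iff_of_nonneg fun j _ => h0 j).1 h.symm
  have a0 := h1 ⟨0, by omega⟩ (Finset.mem_univ _)
  have a1 := h1 ⟨1, by omega⟩ (Finset.mem_univ _)
  have b0 : dw n x ⟨0, by omega⟩ = 0 := by
    rcases mul_eq_zero.1 a0 with h | h
    · exact absurd h (pw_pos n hx _).ne'
    · exact pow_eq_zero_iff two_ne_zero |>.1 h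
  have b1 : dw n x ⟨1, by omega⟩ = 0 := by
    rcases mul_eq_zero.1 a1 with h | h
    · exact absurd h (pw_pos n hx _).ne'
    · exact pow_eq_zero_iff two_ne_zero |>.1 h
  unfold dw at b0 b1
  simp only [Nat.cast_zero, Nat.cast_one] at b0 b1
  linarith

/-- the density in terms of the weights -/
lemma rhoW_eq (hn : 1 ≤ n) {τ : ℝ} {η : Fin (n + 1) → ℝ} (hη : ∀ j, 0 ≤ 1 + τ * η j)
    (hc : 0 < 1 + τ * lin (pw n x) η) :
    rhoW (wt τ η) n x = 1 / x * Real.sqrt (Vw n x) *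
      (Real.sqrt ((1 + τ * lin (pw n x) η) *
        (1 + τ * (lin (fun j => pw n x j * dw n x j ^ 2) η / Vw n x)) -
        τ ^ 2 * (lin (fun j => pw n x j * dw n x j) η ^ 2 / Vw n x)) / (1 + τ * lin (pw n x) η)) := by
  have hA := A0_pos n hx
  have hV := Vw_pos n hx hn
  obtain ⟨A, hAdef⟩ : ∃ A, A = A0 n x := ⟨_, rfl⟩
  obtain ⟨V, hVdef⟩ : ∃ V, V = Vw n x := ⟨_, rfl⟩
  obtain ⟨m, hm⟩ : ∃ m, m = mw n x := ⟨_, rfl⟩
  obtain ⟨c, hcdef⟩ : ∃ c, c = lin (pw n x) η := ⟨_, rfl⟩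
  obtain ⟨a, ha⟩ : ∃ a, a = lin (fun j => pw n x j * dw n x j ^ 2) η := ⟨_, rfl⟩
  obtain ⟨b, hb⟩ : ∃ b, b = lin (fun j => pw n x j * dw n x j) η := ⟨_, rfl⟩
  have hwt : ∀ j : Fin (n + 1), wt τ η j ^ 2 = 1 + τ * η j := by
    intro j
    unfold wt ext
    rw [dif_pos j.2, Real.sq_sqrt (hη j)]
  have hpA : ∀ j : Fin (n + 1), (x ^ 2) ^ (j : ℕ) = A * pw n x j := by
    intro j
    unfold pw
    rw [← hAdef] at hA ⊢
    field_simp
  have hd : ∀ j : Fin (n + 1), ((j : ℕ) : ℝ) = dw n x j + m := by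
    intro j
    unfold dw
    rw [hm]
    ring
  have hpow : ∀ j : ℕ, x * (x ^ j * ((j : ℝ) * x ^ (j - 1))) = (j : ℝ) * (x ^ 2) ^ j := by
    intro j
    rcases Nat.eq_zero_or_pos j with rfl | hj
    · simp
    · obtain ⟨k, rfl⟩ := Nat.exists_eq_succ_of_ne_zero hj.ne'
      have e1 : (x ^ 2) ^ k = x ^ k * x ^ k := by rw [← pow_mul, two_mul, pow_add]
      rw [Nat.succ_sub_one, Nat.succ_eq_add_one, pow_succ (x ^ 2) k, pow_succ x k, e1]
      ring
  have hpow2 : ∀ j : ℕ, x ^ 2 * ((j : ℝ) * x ^ (j - 1)) ^ 2 = (j : ℝ) ^ 2 * (x ^ 2) ^ j := by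
    intro j
    rcases Nat.eq_zero_or_pos j with rfl | hj
    · simp
    · obtain ⟨k, rfl⟩ := Nat.exists_eq_succ_of_ne_zero hj.ne'
      rw [Nat.succ_sub_one, pow_succ (x ^ 2) k, ← pow_mul, mul_pow, ← pow_mul]
      ring
  have E0 : WA (wt τ η) n x = A * (1 + τ * c) := by
    unfold WA
    rw [Finset.sum_range, hcdef]
    have e : ∀ j : Fin (n + 1), (wt τ η j * x ^ (j : ℕ)) ^ 2 =
        A * pw n x j + A * τ * (pw n x j * η j) := by
      intro j
      have e1 : (x ^ (j : ℕ)) ^ 2 = (x ^ 2) ^ (j : ℕ) := by rw [← pow_mul, ← pow_mul, mul_comm]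
      rw [mul_pow, hwt, e1, hpA]
      ring
    rw [Finset.sum_congr rfl fun j _ => e j, Finset.sum_add_distrib, ← Finset.mul_sum,
      ← Finset.mul_sum, pw_sum n hx]
    unfold lin
    ring
  have E1 : x * WB (wt τ η) n x = A * (m * (1 + τ * c) + τ * b) := by
    unfold WB
    rw [Finset.sum_range, hcdef, hb, Finset.mul_sum]
    have e : ∀ j : Fin (n + 1), x * (wt τ η j * x ^ (j : ℕ) *
        (wt τ η j * ((j : ℕ) * x ^ ((j : ℕ) - 1)))) =
        A * (pw n x j * dw n x j) + A * m * pw n x j + A * τ * (pw n x j * dw n x j * η j) +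
          A * m * τ * (pw n x j * η j) := by
      intro j
      have e1 : x * (wt τ η j * x ^ (j : ℕ) * (wt τ η j * (((j : ℕ) : ℝ) * x ^ ((j : ℕ) - 1)))) =
          wt τ η j ^ 2 * (x * (x ^ (j : ℕ) * (((j : ℕ) : ℝ) * x ^ ((j : ℕ) - 1)))) := by ring
      rw [e1, hpow, hwt, hpA, hd]
      ring
    rw [Finset.sum_congr rfl fun j _ => e j, Finset.sum_add_distrib, Finset.sum_add_distrib,
      Finset.sum_add_distrib, ← Finset.mul_sum, ← Finset.mul_sum, ← Finset.mul_sum,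
      ← Finset.mul_sum, pw_sum n hx, pd_sum n hx]
    unfold lin
    ring
  have E2 : x ^ 2 * WC (wt τ η) n x =
      A * (V + τ * a + 2 * m * τ * b + m ^ 2 * (1 + τ * c)) := by
    unfold WC
    rw [Finset.sum_range, hcdef, hb, ha, hVdef, Finset.mul_sum]
    have e : ∀ j : Fin (n + 1), x ^ 2 * (wt τ η j * (((j : ℕ) : ℝ) * x ^ ((j : ℕ) - 1))) ^ 2 =
        A * (pw n x j * dw n x j ^ 2) + 2 * A * m * (pw n x j * dw n x j) + A * m ^ 2 * pw n x j +
        A * τ * (pw n x j * dw n x j ^ 2 * η j) + 2 * A * m * τ * (pw n x j * dw n x j * η j) +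
          A * m ^ 2 * τ * (pw n x j * η j) := by
      intro j
      have e1 : x ^ 2 * (wt τ η j * (((j : ℕ) : ℝ) * x ^ ((j : ℕ) - 1))) ^ 2 =
          wt τ η j ^ 2 * (x ^ 2 * (((j : ℕ) : ℝ) * x ^ ((j : ℕ) - 1)) ^ 2) := by ring
      rw [e1, hpow2, hwt, hpA, hd]
      ring
    rw [Finset.sum_congr rfl fun j _ => e j, Finset.sum_add_distrib, Finset.sum_add_distrib,
      Finset.sum_add_distrib, Finset.sum_add_distrib, Finset.sum_add_distrib, ← Finset.mul_sum,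
      ← Finset.mul_sum, ← Finset.mul_sum, ← Finset.mul_sum, ← Finset.mul_sum, ← Finset.mul_sum,
      pw_sum n hx, pd_sum n hx]
    unfold lin Vw
    ring
  rw [← hcdef] at hc
  rw [← hcdef, ← ha, ← hb, ← hVdef]
  rw [← hVdef] at hV
  rw [← hAdef] at hA
  have hkey : WA (wt τ η) n x * WC (wt τ η) n x - WB (wt τ η) n x ^ 2 =
      (A / x) ^ 2 * (V * ((1 + τ * c) * (1 + τ * (a / V)) - τ ^ 2 * (b ^ 2 / V))) := by
    have h1 : x ^ 2 * (WA (wt τ η) n x * WC (wt τ η) n x - WB (wt τ η) n x ^ 2) =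
        A ^ 2 * (V * ((1 + τ * c) * (1 + τ * (a / V)) - τ ^ 2 * (b ^ 2 / V))) := by
      have h2 : x ^ 2 * (WA (wt τ η) n x * WC (wt τ η) n x - WB (wt τ η) n x ^ 2) =
          WA (wt τ η) n x * (x ^ 2 * WC (wt τ η) n x) - (x * WB (wt τ η) n x) ^ 2 := by ring
      rw [h2, E0, E1, E2]
      field_simp
      ring
    have h3 : (A / x) ^ 2 * (V * ((1 + τ * c) * (1 + τ * (a / V)) - τ ^ 2 * (b ^ 2 / V))) =
        (A ^ 2 * (V * ((1 + τ * c) * (1 + τ * (a / V)) - τ ^ 2 * (b ^ 2 / V)))) / x ^ 2 := by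
      rw [div_pow]; ring
    rw [h3, ← h1]
    field_simp
  unfold rhoW
  rw [hkey, Real.sqrt_mul (by positivity), Real.sqrt_sq (by positivity), Real.sqrt_mul hV.le, E0]
  field_simp

/-- the lower bound of the mean density -/
noncomputable def Gn (τ : ℝ) (n : ℕ) (x : ℝ) : ℝ :=
  1 / x * Real.sqrt (Vw n x) * (1 + τ ^ 2 * (3 / 8 * (∑ j, pw n x j ^ 2) -
    3 / 4 * ((∑ j, pw n x j ^ 2 * dw n x j ^ 2) / Vw n x) -
        1 / 8 * ((∑ j, pw n x j ^ 2 * dw n x j ^ 4) / Vw n x ^ 2)) -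
      10 * τ ^ 3 * ((∑ j, pw n x j ^ 2) + (∑ j, pw n x j ^ 2 * dw n x j ^ 4) / Vw n x ^ 2))

/-- **The lower bound of the mean density.** -/
theorem mean_density (hn : 1 ≤ n) {τ : ℝ} (hτ0 : 0 ≤ τ) (hτ : τ ≤ 1 / 8) :
    Gn τ n x ≤ ∫ η, rhoW (wt τ η) n x ∂(PC (n + 1)) := by
  have hV := Vw_pos n hx hn
  have h1 := second (fun j => (pw_pos n hx j).le) (pw_sum n hx) (d := dw n x) hV rfl hτ0 hτ
  have h2 : ∫ η, rhoW (wt τ η) n x ∂(PC (n + 1)) = 1 / x * Real.sqrt (Vw n x) *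
      ∫ η, Real.sqrt ((1 + τ * lin (pw n x) η) *
        (1 + τ * (lin (fun j => pw n x j * dw n x j ^ 2) η / Vw n x)) -
        τ ^ 2 * (lin (fun j => pw n x j * dw n x j) η ^ 2 / Vw n x)) /
          (1 + τ * lin (pw n x) η) ∂(PC (n + 1)) := by
    rw [← integral_const_mul]
    refine integral_congr_ae ?_
    filter_upwards [pc_ae] with η hη
    have h : ∀ j, |η j| ≤ 1 := fun j => by
      rcases hη j with h | h <;> rw [h] <;> simp
    refine rhoW_eq n hx hn (fun j => ?_) ?_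
    · obtain ⟨h1, h2⟩ := abs_le.1 (h j)
      nlinarith
    · have h3 : |lin (pw n x) η| ≤ 1 := by
        refine (lin_bd _ η h).trans ?_
        rw [← pw_sum n hx]
        exact Finset.sum_le_sum fun j _ => (abs_of_nonneg (pw_pos n hx j).le).le
      obtain ⟨h1, h2⟩ := abs_le.1 h3
      nlinarith
  rw [h2]
  unfold Gn
  exact mul_le_mul_of_nonneg_left h1 (by positivity)

end

end Pool.Agent.X134.KC
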