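import Mathlib

/-!
# The elementary inequality
-/

set_option autoImplicit false

namespace Pool.Agent.X134.KC

lemma sqrt_lower {y : ℝ} (hy : |y| ≤ 1 / 2) :
    1 + y / 2 - y ^ 2 / 8 - |y| ^ 3 / 2 ≤ Real.sqrt (1 + y) := by
  apply Real.le_sqrt_of_sq_le
  obtain ⟨t, ht⟩ : ∃ t, t = |y| := ⟨_, rfl⟩
  have ht0 : 0 ≤ t := ht ▸ abs_nonneg y
  have ht2 : t ^ 2 = y ^ 2 := by rw [ht, sq_abs]
  rw [← ht] at hy ⊢
  have h1 : -t ≤ y := by rw [ht]; exact neg_abs_le y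
  have h2 : y ≤ t := by rw [ht]; exact le_abs_self y
  have e : (1 + y / 2 - y ^ 2 / 8 - t ^ 3 / 2) ^ 2 =
      1 + y + (-(y * t ^ 2) / 8 + t ^ 4 / 64 - t ^ 3 * (1 + y / 2 - t ^ 2 / 8) + t ^ 6 / 4) := by
    have : y ^ 2 = t ^ 2 := ht2.symm
    have h3 : y ^ 3 = y * t ^ 2 := by rw [pow_succ, this]; ring
    have h4 : y ^ 4 = t ^ 4 := by
      have : y ^ 4 = (y ^ 2) ^ 2 := by ring
      rw [this, ← ht2]; ring
    have : (1 + y / 2 - y ^ 2 / 8 - t ^ 3 / 2) ^ 2 = 1 + y + y ^ 2 / 4 + y ^ 4 / 64 + t ^ 6 / 4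
        - y ^ 2 / 4 - y ^ 3 / 8 - t ^ 3 * (1 + y / 2 - y ^ 2 / 8) := by ring
    rw [this, h3, h4, ← ht2]
    ring
  rw [e]
  have b1 : -(y * t ^ 2) / 8 ≤ t ^ 3 / 8 := by
    have : -y * t ^ 2 ≤ t * t ^ 2 := mul_le_mul_of_nonneg_right (by linarith) (by positivity)
    have e3 : t * t ^ 2 = t ^ 3 := by ring
    linarith
  have b2 : t ^ 4 / 64 ≤ t ^ 3 / 128 := by
    have : t ^ 4 = t ^ 3 * t := by ring
    rw [this]
    have : t ^ 3 * t ≤ t ^ 3 * (1 / 2) := mul_le_mul_of_nonneg_left hy (by positivity)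
    linarith
  have b3 : t ^ 3 * (1 / 2) ≤ t ^ 3 * (1 + y / 2 - t ^ 2 / 8) := by
    refine mul_le_mul_of_nonneg_left ?_ (by positivity)
    nlinarith
  have b4 : t ^ 6 / 4 ≤ t ^ 3 / 32 := by
    have : t ^ 6 = t ^ 3 * t ^ 3 := by ring
    rw [this]
    have h5 : t ^ 3 ≤ (1 / 2) ^ 3 := pow_le_pow_left₀ ht0 hy 3
    have : t ^ 3 * t ^ 3 ≤ t ^ 3 * (1 / 2) ^ 3 := mul_le_mul_of_nonneg_left h5 (by positivity)
    norm_num at this
    linarith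
  have b5 : 0 ≤ t ^ 3 := by positivity
  linarith

/-- **The elementary inequality.** -/
theorem core {τ c A B : ℝ} (hτ0 : 0 ≤ τ) (hτ : τ ≤ 1 / 8) (hc : |c| ≤ 1) (hA : |A| ≤ 1)
    (hB0 : 0 ≤ B) (hB : B ≤ 1) :
    1 + τ / 2 * (A - c) - τ ^ 2 / 2 * (c * (A - c) + B) - τ ^ 2 / 8 * (A - c) ^ 2
      - 5 * τ ^ 3 * (c ^ 2 + (A - c) ^ 2 + B) ≤
      Real.sqrt ((1 + τ * c) * (1 + τ * A) - τ ^ 2 * B) / (1 + τ * c) := by
  obtain ⟨hc1, hc2⟩ := abs_le.1 hc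
  obtain ⟨hA1, hA2⟩ := abs_le.1 hA
  have hd : 7 / 8 ≤ 1 + τ * c := by nlinarith
  have hd' : 1 + τ * c ≤ 9 / 8 := by nlinarith
  have hd0 : 0 < 1 + τ * c := by linarith
  obtain ⟨u, hu⟩ : ∃ u, u = 1 / (1 + τ * c) := ⟨_, rfl⟩
  have hu0 : 0 < u := by rw [hu]; positivity
  have hu1 : u ≤ 8 / 7 := by
    rw [hu, div_le_iff₀ hd0]; linarith
  have hueq : u * (1 + τ * c) = 1 := by rw [hu]; field_simp
  obtain ⟨D, hD⟩ : ∃ D, D = A - c := ⟨_, rfl⟩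
  have hD2 : |D| ≤ 2 := by
    rw [hD, abs_le]; constructor <;> linarith
  obtain ⟨hDl, hDu⟩ := abs_le.1 hD2
  obtain ⟨y, hy⟩ : ∃ y, y = τ * D * u - τ ^ 2 * B * u ^ 2 := ⟨_, rfl⟩
  have hrw : Real.sqrt ((1 + τ * c) * (1 + τ * A) - τ ^ 2 * B) / (1 + τ * c) =
      Real.sqrt (1 + y) := by
    have e1 : (1 + τ * c) * (1 + τ * A) - τ ^ 2 * B = (1 + τ * c) ^ 2 * (1 + y) := by
      have e2 : (1 + τ * c) ^ 2 * (1 + y) = (1 + τ * c) ^ 2 + τ * D * (u * (1 + τ * c)) * (1 + τ * c) -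
          τ ^ 2 * B * (u * (1 + τ * c)) ^ 2 := by rw [hy]; ring
      rw [e2, hueq, hD]
      ring
    rw [e1, Real.sqrt_mul (by positivity), Real.sqrt_sq hd0.le]
    field_simp
  rw [hrw, ← hD]
  -- bounds for `y`
  have ht2 : τ ^ 2 ≤ τ / 8 := by nlinarith
  have hu2 : u ^ 2 ≤ 64 / 49 := by nlinarith
  have hBu : 0 ≤ B * u ^ 2 := by positivity
  have hBu' : B * u ^ 2 ≤ 64 / 49 * B := by nlinarith
  have hyabs : |y| ≤ 5 / 2 * τ := by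
    have a1 : |τ * D * u| ≤ τ * 2 * (8 / 7) := by
      rw [abs_mul, abs_mul, abs_of_nonneg hτ0, abs_of_pos hu0]
      have := mul_le_mul_of_nonneg_left hD2 hτ0
      exact mul_le_mul this hu1 hu0.le (by positivity)
    have a2 : |τ ^ 2 * B * u ^ 2| ≤ τ / 8 * (64 / 49) := by
      rw [abs_of_nonneg (by positivity), mul_assoc]
      refine mul_le_mul ht2 ?_ hBu (by positivity)
      nlinarith
    have a3 : |y| ≤ |τ * D * u| + |τ ^ 2 * B * u ^ 2| := by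
      rw [hy]
      exact abs_sub _ _
    nlinarith
  have hyh : |y| ≤ 1 / 2 := by nlinarith
  refine le_trans ?_ (sqrt_lower hyh)
  -- first order
  have f1 : τ * D - τ ^ 2 * (c * D) - 16 / 7 * τ ^ 3 * c ^ 2 ≤ τ * D * u := by
    have e1 : τ * D * u = τ * D - τ ^ 2 * (c * D) + τ ^ 3 * (c ^ 2 * (D * u)) := by
      have : u = 1 - τ * c + τ ^ 2 * c ^ 2 * u := by
        linear_combination (1 - τ * c) * hueq
      calc τ * D * u = τ * D * (1 - τ * c + τ ^ 2 * c ^ 2 * u) := by rw [← this]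
        _ = _ := by ring
    rw [e1]
    have e2 : -(16 / 7) ≤ D * u := by
      have : |D * u| ≤ 2 * (8 / 7) := by
        rw [abs_mul, abs_of_pos hu0]
        exact mul_le_mul hD2 hu1 hu0.le (by norm_num)
      linarith [(abs_le.1 this).1]
    have e3 : 0 ≤ τ ^ 3 * c ^ 2 := by positivity
    nlinarith [mul_le_mul_of_nonneg_left e2 e3]
  have hu3 : u ^ 2 ≤ 1 + 3 * τ := by
    have h4 : u ≤ 1 + τ * (8 / 7) := by
      have h3 : u = 1 - τ * c * u := by linarith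
      have : -(c * u) ≤ 8 / 7 := by
        have : |c * u| ≤ 1 * (8 / 7) := by
          rw [abs_mul, abs_of_pos hu0]
          exact mul_le_mul hc hu1 hu0.le (by norm_num)
        linarith [(abs_le.1 this).1]
      nlinarith
    have : u ^ 2 ≤ (1 + τ * (8 / 7)) ^ 2 := pow_le_pow_left₀ hu0.le h4 2
    nlinarith
  have f2 : τ ^ 2 * B * u ^ 2 ≤ τ ^ 2 * B + 3 * τ ^ 3 * B := by
    have := mul_le_mul_of_nonneg_left hu3 (show 0 ≤ τ ^ 2 * B by positivity)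
    linarith
  -- second order
  have g0 : y ^ 2 = τ ^ 2 * D ^ 2 * u ^ 2 - 2 * τ ^ 3 * (D * u * (B * u ^ 2)) +
      τ ^ 4 * (B * u ^ 2) ^ 2 := by
    rw [hy]; ring
  have g1 : τ ^ 2 * D ^ 2 * u ^ 2 ≤ τ ^ 2 * D ^ 2 + 3 * τ ^ 3 * D ^ 2 := by
    have := mul_le_mul_of_nonneg_left hu3 (show 0 ≤ τ ^ 2 * D ^ 2 by positivity)
    linarith
  have g2 : -(D * u * (B * u ^ 2)) ≤ 3 * B := by
    have h5 : |D * u| ≤ 16 / 7 := by
      rw [abs_mul, abs_of_pos hu0]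
      have := mul_le_mul hD2 hu1 hu0.le (by norm_num : (0:ℝ) ≤ 2)
      linarith
    have h6 := (abs_le.1 h5).1
    have h7 : -(D * u) * (B * u ^ 2) ≤ 16 / 7 * (B * u ^ 2) :=
      mul_le_mul_of_nonneg_right (by linarith) hBu
    nlinarith
  have g3 : τ ^ 4 * (B * u ^ 2) ^ 2 ≤ τ ^ 3 * B := by
    have h5 : (B * u ^ 2) ^ 2 ≤ 2 * B := by
      have h8 : B * u ^ 2 ≤ 64 / 49 := by nlinarith
      have : (B * u ^ 2) ^ 2 = (B * u ^ 2) * (B * u ^ 2) := by ring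
      rw [this]
      have := mul_le_mul hBu' h8 hBu (by positivity : 0 ≤ 64 / 49 * B)
      nlinarith
    have h6 : τ ^ 4 ≤ τ ^ 3 / 8 := by
      have : τ ^ 4 = τ ^ 3 * τ := by ring
      rw [this]
      have := mul_le_mul_of_nonneg_left hτ (show 0 ≤ τ ^ 3 by positivity)
      linarith
    have h7 : τ ^ 4 * (B * u ^ 2) ^ 2 ≤ τ ^ 3 / 8 * (2 * B) :=
      mul_le_mul h6 h5 (by positivity) (by positivity)
    have : 0 ≤ τ ^ 3 * B := by positivity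
    linarith
  have g4 : y ^ 2 ≤ τ ^ 2 * D ^ 2 + 3 * τ ^ 3 * D ^ 2 + 7 * τ ^ 3 * B := by
    have h3 : 0 ≤ τ ^ 3 := by positivity
    have := mul_le_mul_of_nonneg_left g2 h3
    rw [g0]
    linarith
  -- third order
  have k1 : |y| ^ 3 ≤ 4 * τ ^ 3 * D ^ 2 + 3 * τ ^ 3 * B := by
    have h3 : |y| ^ 3 = |y| * y ^ 2 := by
      rw [← sq_abs y]; ring
    rw [h3]
    have h4 : |y| * y ^ 2 ≤ 5 / 2 * τ * (τ ^ 2 * D ^ 2 + 3 * τ ^ 3 * D ^ 2 + 7 * τ ^ 3 * B) :=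
      mul_le_mul hyabs g4 (sq_nonneg y) (by positivity)
    have h5 : τ ^ 4 ≤ τ ^ 3 / 8 := by
      have : τ ^ 4 = τ ^ 3 * τ := by ring
      rw [this]
      have := mul_le_mul_of_nonneg_left hτ (show 0 ≤ τ ^ 3 by positivity)
      linarith
    have h6 : 0 ≤ D ^ 2 := sq_nonneg D
    have h7 := mul_le_mul_of_nonneg_right h5 h6
    have h8 := mul_le_mul_of_nonneg_right h5 hB0
    have h9 : 0 ≤ τ ^ 3 * D ^ 2 := by positivity
    have h10 : 0 ≤ τ ^ 3 * B := by positivity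
    linarith
  have l1 : 0 ≤ τ ^ 3 * D ^ 2 := by positivity
  have l2 : 0 ≤ τ ^ 3 * B := by positivity
  have l3 : 0 ≤ τ ^ 3 * c ^ 2 := by positivity
  have l4 : τ * D - τ ^ 2 * (c * D) - 16 / 7 * τ ^ 3 * c ^ 2 - (τ ^ 2 * B + 3 * τ ^ 3 * B) ≤ y := by
    rw [hy]
    linarith
  linarith

end Pool.Agent.X134.KC
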