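import Pool.Agent.X134.KC.Count
import Pool.Agent.Helper764.KacG1

/-!
# Almost surely there are no double zeros and no zeros at given points
-/

set_option autoImplicit false
open MeasureTheory ProbabilityTheory Filter Topology Set
open scoped ENNReal NNReal
open Kac764

namespace Pool.Agent.X134.KC

/-- a set which meets every line in the direction of the first coordinate in a countable set is
a null set, if the law of the coordinates has no atoms -/
lemma null_of_update (μ : Measure ℝ) [IsProbabilityMeasure μ] (hμ : ∀ x, μ {x} = 0)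
    {S : Set (ℕ → ℝ)} (hS : MeasurableSet S)
    (h : ∀ ω : ℕ → ℝ, {c : ℝ | Function.update ω 0 c ∈ S}.Countable) : PP μ S = 0 := by
  have h1 := G1.x_lint_upd μ 0 (H := S.indicator fun _ => 1) (measurable_const.indicator hS)
  rw [lintegral_indicator hS, lintegral_const, one_mul, Measure.restrict_apply_univ] at h1
  rw [← h1]
  refine (lintegral_congr fun ω => ?_).trans lintegral_zero
  have hm : MeasurableSet {c : ℝ | Function.update ω 0 c ∈ S} := (h ω).measurableSet
  have e : (fun z => S.indicator (fun _ => (1 : ℝ≥0∞)) (Function.update ω 0 z)) =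
      {c : ℝ | Function.update ω 0 c ∈ S}.indicator fun _ => 1 := by
    funext z
    by_cases hz : Function.update ω 0 z ∈ S
    · rw [indicator_of_mem hz, indicator_of_mem (show z ∈ {c : ℝ | Function.update ω 0 c ∈ S} from hz)]
    · rw [indicator_of_notMem hz,
        indicator_of_notMem (show z ∉ {c : ℝ | Function.update ω 0 c ∈ S} from hz)]
  rw [e, lintegral_indicator hm, lintegral_const, one_mul, Measure.restrict_apply_univ]
  rw [← Set.biUnion_of_singleton {c : ℝ | Function.update ω 0 c ∈ S}]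
  exact (measure_biUnion_null_iff (h ω)).2 fun x _ => hμ x

section
variable (s : ℕ → ℝ) (n : ℕ)

lemma D0_upd (ω : ℕ → ℝ) (c x : ℝ) : D0 n (fun j => s j * Function.update ω 0 c j) x =
    D0 n (fun j => s j * Function.update ω 0 0 j) x + s 0 * c := by
  unfold D0
  rw [Finset.sum_range_succ', Finset.sum_range_succ']
  have : ∀ k : ℕ, Function.update ω 0 c (k + 1) = Function.update ω 0 0 (k + 1) := by
    intro k
    rw [Function.update_of_ne (by omega), Function.update_of_ne (by omega)]
  simp only [this, Function.update_self]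
  ring

lemma D1_upd (ω : ℕ → ℝ) (c x : ℝ) : D1 n (fun j => s j * Function.update ω 0 c j) x =
    D1 n (fun j => s j * Function.update ω 0 0 j) x := by
  unfold D1
  rw [Finset.sum_range_succ', Finset.sum_range_succ']
  have : ∀ k : ℕ, Function.update ω 0 c (k + 1) = Function.update ω 0 0 (k + 1) := by
    intro k
    rw [Function.update_of_ne (by omega), Function.update_of_ne (by omega)]
  simp only [this]
  simp

lemma D0_joint : Continuous fun p : ℝ × (ℕ → ℝ) => D0 n (fun j => s j * p.2 j) p.1 := by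
  unfold D0
  fun_prop

lemma D1_joint : Continuous fun p : ℝ × (ℕ → ℝ) => D1 n (fun j => s j * p.2 j) p.1 := by
  unfold D1
  fun_prop

lemma deriv_eval (ω : ℕ → ℝ) (x : ℝ) : (kac n ω).derivative.eval x = D1 n ω x := by
  have h1 := (kac n ω).hasDerivAt x
  have h2 := D0_deriv n ω x
  have e : (fun x => (kac n ω).eval x) = D0 n ω := by
    funext x
    exact eval_kac n ω x
  rw [e] at h1
  exact h1.unique h2

lemma meas_double : MeasurableSet {ω : ℕ → ℝ | ∃ x : ℝ, D0 n (fun j => s j * ω j) x = 0 ∧
    D1 n (fun j => s j * ω j) x = 0} := by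
  have e : {ω : ℕ → ℝ | ∃ x : ℝ, D0 n (fun j => s j * ω j) x = 0 ∧
      D1 n (fun j => s j * ω j) x = 0} = ⋃ K : ℕ, {ω : ℕ → ℝ | ∃ x ∈ Icc (-(K : ℝ)) K,
        D0 n (fun j => s j * ω j) x = 0 ∧ D1 n (fun j => s j * ω j) x = 0} := by
    ext ω
    rw [mem_iUnion]
    constructor
    · rintro ⟨x, hx⟩
      obtain ⟨K, hK⟩ := exists_nat_ge |x|
      exact ⟨K, x, abs_le.1 hK, hx⟩
    · rintro ⟨K, x, -, hx⟩
      exact ⟨x, hx⟩
  rw [e]
  refine MeasurableSet.iUnion fun K => IsClosed.measurableSet ?_
  have hc : IsClosed {p : Icc (-(K : ℝ)) K × (ℕ → ℝ) | D0 n (fun j => s j * p.2 j) p.1 = 0 ∧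
      D1 n (fun j => s j * p.2 j) p.1 = 0} := by
    refine IsClosed.inter ?_ ?_
    · exact isClosed_eq ((D0_joint s n).comp ((continuous_subtype_val.comp continuous_fst).prodMk
        continuous_snd)) continuous_const
    · exact isClosed_eq ((D1_joint s n).comp ((continuous_subtype_val.comp continuous_fst).prodMk
        continuous_snd)) continuous_const
  have h2 := isClosedMap_snd_of_compactSpace _ hc
  convert h2 using 1
  ext ω
  constructor
  · rintro ⟨x, hx, h⟩
    exact ⟨(⟨x, hx⟩, ω), h, rfl⟩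
  · rintro ⟨⟨x, ω'⟩, h, rfl⟩
    exact ⟨x, x.2, h⟩

/-- the critical values of a polynomial are countable -/
lemma crit_countable (ω : ℕ → ℝ) : (D0 n ω '' {x | D1 n ω x = 0}).Countable := by
  by_cases h : (kac n ω).derivative = 0
  · have h1 : ∀ x, D1 n ω x = 0 := by
      intro x
      rw [← deriv_eval, h, Polynomial.eval_zero]
    have h2 : ∀ x, D0 n ω x = D0 n ω 0 := by
      intro x
      refine is_const_of_deriv_eq_zero (fun y => (D0_deriv n ω y).differentiableAt) (fun y => ?_) x 0
      rw [(D0_deriv n ω y).deriv, h1]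
    refine (Set.countable_singleton (D0 n ω 0)).mono ?_
    rintro y ⟨x, -, rfl⟩
    exact h2 x
  · have hf : {x | D1 n ω x = 0}.Finite := by
      refine ((kac n ω).derivative.roots.toFinset.finite_toSet).subset fun x hx => ?_
      simp only [Finset.mem_coe, Multiset.mem_toFinset]
      rw [Polynomial.mem_roots h]
      show (kac n ω).derivative.eval x = 0
      rw [deriv_eval]
      exact hx
    exact (hf.image _).countable

variable {s}

theorem ae_no_double (hs : s 0 ≠ 0) (μ : Measure ℝ) [IsProbabilityMeasure μ] (hμ : ∀ x, μ {x} = 0) :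
    ∀ᵐ ω ∂(PP μ), ∀ x, D0 n (fun j => s j * ω j) x = 0 → D1 n (fun j => s j * ω j) x ≠ 0 := by
  rw [ae_iff]
  have e : {ω : ℕ → ℝ | ¬ ∀ x, D0 n (fun j => s j * ω j) x = 0 → D1 n (fun j => s j * ω j) x ≠ 0} =
      {ω : ℕ → ℝ | ∃ x : ℝ, D0 n (fun j => s j * ω j) x = 0 ∧
        D1 n (fun j => s j * ω j) x = 0} := by
    ext ω
    show (¬ ∀ x, D0 n (fun j => s j * ω j) x = 0 → D1 n (fun j => s j * ω j) x ≠ 0) ↔
      ∃ x : ℝ, D0 n (fun j => s j * ω j) x = 0 ∧ D1 n (fun j => s j * ω j) x = 0
    push Not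
    rfl
  rw [e]
  refine null_of_update μ hμ (meas_double s n) fun ω => ?_
  have h1 := crit_countable n (fun j => s j * Function.update ω 0 0 j)
  refine (h1.image fun y => -(y / s 0)).mono ?_
  rintro c ⟨x, hx0, hx1⟩
  rw [D0_upd] at hx0
  rw [D1_upd] at hx1
  refine ⟨_, ⟨x, hx1, rfl⟩, ?_⟩
  show -(D0 n (fun j => s j * Function.update ω 0 0 j) x / s 0) = c
  have : D0 n (fun j => s j * Function.update ω 0 0 j) x = -(s 0 * c) := by linarith
  rw [this]
  field_simp

theorem ae_ne_at (hs : s 0 ≠ 0) (μ : Measure ℝ) [IsProbabilityMeasure μ] (hμ : ∀ x, μ {x} = 0)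
    (x : ℝ) : ∀ᵐ ω ∂(PP μ), D0 n (fun j => s j * ω j) x ≠ 0 := by
  rw [ae_iff]
  have e : {ω : ℕ → ℝ | ¬ D0 n (fun j => s j * ω j) x ≠ 0} =
      {ω : ℕ → ℝ | D0 n (fun j => s j * ω j) x = 0} := by
    ext ω
    exact not_not
  rw [e]
  refine null_of_update μ hμ ?_ fun ω => ?_
  · exact (isClosed_eq ((D0_joint s n).comp (continuous_const.prodMk continuous_id))
      continuous_const).measurableSet
  · refine (Set.countable_singleton (-(D0 n (fun j => s j * Function.update ω 0 0 j) x / s 0))).mono ?_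
    intro c hc
    have hc' : D0 n (fun j => s j * Function.update ω 0 c j) x = 0 := hc
    rw [D0_upd] at hc'
    rw [mem_singleton_iff]
    have : D0 n (fun j => s j * Function.update ω 0 0 j) x = -(s 0 * c) := by linarith
    rw [this]
    field_simp

end

end Pool.Agent.X134.KC
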