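import Pool.Agent.X134.KC.Sign
import Pool.Agent.X134.KC.NoDouble
import Pool.Agent.Helper764.KacH4

/-!
# The Kac-Rice formula for Gaussian coefficients with weights
-/

set_option autoImplicit false
open MeasureTheory ProbabilityTheory Filter Topology Set
open scoped ENNReal NNReal
open Kac764

namespace Pool.Agent.X134.KC

lemma gauss_atom (x : ℝ) : γ {x} = 0 := by
  have := nullSingletonClass_gaussianReal (μ := 0) (v := 1) one_ne_zero
  exact measure_singleton x

lemma nz_le' (n : ℕ) (ω : ℕ → ℝ) (S : Set ℝ) : nz (kac n ω) S ≤ n := H4.nz_natDegree_kac n ω S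

lemma meas_nzw (s : ℕ → ℝ) (n : ℕ) (a b : ℝ) :
    Measurable fun g : ℕ → ℝ => nz (kac n (fun j => s j * g j)) (Ioo a b) := by
  have h := J6.measurable_nz n a b
  exact h.comp (measurable_pi_lambda _ fun j => measurable_const.mul (measurable_pi_apply j))

lemma meas_sgn (s : ℕ → ℝ) (n : ℕ) (x y : ℝ) :
    MeasurableSet {g : ℕ → ℝ | D0 n (fun j => s j * g j) x * D0 n (fun j => s j * g j) y < 0} := by
  have h1 : Continuous fun g : ℕ → ℝ => D0 n (fun j => s j * g j) x :=
    (D0_joint s n).comp (continuous_const.prodMk continuous_id)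
  have h2 : Continuous fun g : ℕ → ℝ => D0 n (fun j => s j * g j) y :=
    (D0_joint s n).comp (continuous_const.prodMk continuous_id)
  exact (isOpen_lt (h1.mul h2) continuous_const).measurableSet

lemma SC_eq_sum (s : ℕ → ℝ) (n : ℕ) (a b : ℝ) (N : ℕ) (g : ℕ → ℝ) :
    (SC n a b N (fun j => s j * g j) : ℝ) = ∑ i ∈ Finset.range N,
      {g : ℕ → ℝ | D0 n (fun j => s j * g j) (pt a b N i) *
        D0 n (fun j => s j * g j) (pt a b N (i + 1)) < 0}.indicator (fun _ => (1 : ℝ)) g := by
  classical
  unfold SC
  rw [Finset.card_filter]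
  push_cast
  refine Finset.sum_congr rfl fun i _ => ?_
  rw [indicator_apply]
  rfl

/-- **The Kac-Rice formula** for Gaussian coefficients with weights. -/
theorem kac_rice {s : ℕ → ℝ} (h0 : s 0 ≠ 0) (h1 : s 1 ≠ 0) {n : ℕ} (hn : 1 ≤ n) {a b : ℝ}
    (hab : a < b) :
    ∫ g, (nz (kac n (fun j => s j * g j)) (Ioo a b) : ℝ) ∂(PP γ) =
      1 / Real.pi * ∫ x in a..b, rhoW s n x := by
  have hE : ∀ N : ℕ, 1 ≤ N → ∫ g, (SC n a b N (fun j => s j * g j) : ℝ) ∂(PP γ) =
      1 / Real.pi * ∑ i ∈ Finset.range N, ang s n (pt a b N i) (pt a b N (i + 1)) := by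
    intro N hN
    simp only [SC_eq_sum]
    rw [integral_finsetSum, Finset.mul_sum]
    · refine Finset.sum_congr rfl fun i _ => ?_
      rw [integral_indicator (meas_sgn s n _ _), setIntegral_const, smul_eq_mul, mul_one,
        Measure.real, sign_prob h0 h1 hn, ENNReal.toReal_ofReal]
      · ring
      · exact div_nonneg (Real.arccos_nonneg _) Real.pi_pos.le
      · have := pt_succ_sub a b N i
        have hN0 : (0 : ℝ) < N := by exact_mod_cast hN
        have : 0 < (b - a) / N := div_pos (by linarith) hN0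
        linarith
    · intro i _
      exact (integrable_const (1 : ℝ)).indicator (meas_sgn s n _ _)
  have hlim : Tendsto (fun N : ℕ => ∫ g, (SC n a b N (fun j => s j * g j) : ℝ) ∂(PP γ)) atTop
      (𝓝 (∫ g, (nz (kac n (fun j => s j * g j)) (Ioo a b) : ℝ) ∂(PP γ))) := by
    refine tendsto_integral_of_dominated_convergence (fun _ => (n : ℝ)) ?_ (integrable_const _) ?_ ?_
    · intro N
      simp only [SC_eq_sum]
      exact (Finset.measurable_sum _ fun i _ =>
        measurable_const.indicator (meas_sgn s n _ _)).aestronglyMeasurable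
    · intro N
      refine Eventually.of_forall fun g => ?_
      rw [Real.norm_eq_abs, abs_of_nonneg (Nat.cast_nonneg _)]
      exact_mod_cast (SC_le n hab N _).trans (nz_le' n _ _)
    · have hne : ∀ᵐ g ∂(PP γ), ∀ N i : ℕ, D0 n (fun j => s j * g j) (pt a b N i) ≠ 0 := by
        rw [ae_all_iff]
        intro N
        rw [ae_all_iff]
        intro i
        exact ae_ne_at n h0 γ gauss_atom _
      filter_upwards [hne, ae_no_double n h0 γ gauss_atom] with g hg1 hg2
      refine tendsto_const_nhds.congr' ?_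
      filter_upwards [SC_ge n hab _ hg1 hg2] with N hN
      have := SC_le n hab N (fun j => s j * g j)
      have : nz (kac n (fun j => s j * g j)) (Ioo a b) = SC n a b N (fun j => s j * g j) := by omega
      rw [this]
  have h2 := (ang_sum h0 n hab).const_mul (1 / Real.pi)
  refine tendsto_nhds_unique hlim (h2.congr' ?_)
  filter_upwards [eventually_ge_atTop 1] with N hN
  exact (hE N hN).symm

end Pool.Agent.X134.KC
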