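import Pool.Agent.X134.KC.Lower

/-!
# The law of the mixture
-/

set_option autoImplicit false
open MeasureTheory ProbabilityTheory Filter Topology Set
open scoped ENNReal NNReal
open Kac764

namespace Pool.Agent.X134.KC

/-- the mixture of `N(0, 1 - τ)` and `N(0, 1 + τ)` with equal weights -/
noncomputable def mixG (τ : ℝ) : Measure ℝ :=
  (1 / 2 : ℝ≥0∞) • gaussianReal 0 (1 - τ).toNNReal + (1 / 2 : ℝ≥0∞) • gaussianReal 0 (1 + τ).toNNReal

lemma map_sqrt {v : ℝ} (hv : 0 ≤ v) : γ.map (fun y => Real.sqrt v * y) = gaussianReal 0 v.toNNReal := by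
  have h := gaussianReal_map_const_mul (μ := 0) (v := 1) (Real.sqrt v)
  rw [mul_zero, mul_one] at h
  have e : (NNReal.mk (Real.sqrt v ^ 2) (sq_nonneg _) : ℝ≥0) = v.toNNReal := by
    apply NNReal.eq
    rw [Real.coe_toNNReal _ hv]
    exact Real.sq_sqrt hv
  rw [e] at h
  exact h

lemma mixL_eq {τ : ℝ} (hτ0 : 0 ≤ τ) (hτ1 : τ ≤ 1) : mixL τ = mixG τ := by
  have hm := sc_meas τ
  have e1 : (Measure.dirac (1 : ℝ)).prod γ = γ.map (Prod.mk 1) := Measure.dirac_prod 1
  have e2 : (Measure.dirac (-1 : ℝ)).prod γ = γ.map (Prod.mk (-1)) := Measure.dirac_prod (-1)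
  unfold mixL coin mixG
  rw [Measure.add_prod, Measure.prod_smul_left, Measure.prod_smul_left, Measure.map_add _ _ hm,
    Measure.map_smul, Measure.map_smul, e1, e2, Measure.map_map hm measurable_prodMk_left,
    Measure.map_map hm measurable_prodMk_left, add_comm]
  have f1 : sc τ ∘ Prod.mk 1 = fun y => Real.sqrt (1 + τ) * y := by
    funext y
    unfold sc
    simp
  have f2 : sc τ ∘ Prod.mk (-1) = fun y => Real.sqrt (1 - τ) * y := by
    funext y
    unfold sc
    simp
    left
    ring_nf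
  rw [f1, f2, map_sqrt (by linarith), map_sqrt (by linarith)]

lemma gauss_atom' {v : ℝ} (hv : 0 < v) (x : ℝ) : gaussianReal 0 v.toNNReal {x} = 0 := by
  have : v.toNNReal ≠ 0 := by
    rw [Ne, Real.toNNReal_eq_zero, not_le]
    exact hv
  haveI := nullSingletonClass_gaussianReal (μ := 0) this
  exact measure_singleton x

lemma mixG_atom {τ : ℝ} (hτ0 : 0 ≤ τ) (hτ1 : τ < 1) (x : ℝ) : mixG τ {x} = 0 := by
  unfold mixG
  simp only [Measure.coe_add, Measure.coe_smul, Pi.add_apply, Pi.smul_apply, smul_eq_mul]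
  rw [gauss_atom' (by linarith), gauss_atom' (by linarith)]
  simp

lemma gauss_var (v : ℝ≥0) : ∫ x, x ^ 2 ∂(gaussianReal 0 v) = v := by
  have h : Var[id; gaussianReal 0 v] = v := variance_fun_id_gaussianReal (μ := 0) (v := v)
  rw [variance_eq_sub (memLp_id_gaussianReal 2)] at h
  simp only [id_eq, integral_id_gaussianReal] at h
  simpa using h

lemma gauss_rpow (v : ℝ≥0) (p : ℝ) (hp : 0 < p) :
    Integrable (fun x : ℝ => |x| ^ p) (gaussianReal 0 v) := by
  have h := (memLp_id_gaussianReal (μ := 0) (v := v) p.toNNReal)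
  have h2 := h.integrable_norm_rpow (by simpa using hp) (by simp)
  simpa [Real.coe_toNNReal _ hp.le] using h2

lemma gauss_sq (v : ℝ≥0) : Integrable (fun x : ℝ => x ^ 2) (gaussianReal 0 v) :=
  (memLp_id_gaussianReal (μ := 0) (v := v) 2).integrable_sq

lemma gauss_one (v : ℝ≥0) : Integrable (fun x : ℝ => x) (gaussianReal 0 v) :=
  (memLp_id_gaussianReal (μ := 0) (v := v) 1).integrable le_rfl

lemma int_mixG {τ : ℝ} {f : ℝ → ℝ} (h : ∀ v : ℝ≥0, Integrable f (gaussianReal 0 v)) :
    Integrable f (mixG τ) ∧ ∫ x, f x ∂(mixG τ) = (∫ x, f x ∂(gaussianReal 0 (1 - τ).toNNReal) +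
      ∫ x, f x ∂(gaussianReal 0 (1 + τ).toNNReal)) / 2 := by
  unfold mixG
  have i1 := (h (1 - τ).toNNReal).smul_measure (c := (1 / 2 : ℝ≥0∞)) (by simp)
  have i2 := (h (1 + τ).toNNReal).smul_measure (c := (1 / 2 : ℝ≥0∞)) (by simp)
  refine ⟨i1.add_measure i2, ?_⟩
  rw [integral_add_measure i1 i2, integral_smul_measure, integral_smul_measure]
  simp
  ring

lemma std_gauss : Std γ where
  prob := inferInstance
  int2 := gauss_sq 1
  mean := integral_id_gaussianReal
  var := by rw [gauss_var]; rfl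

instance (τ : ℝ) : IsProbabilityMeasure (mixG τ) := by
  constructor
  unfold mixG
  simp only [Measure.coe_add, Measure.coe_smul, Pi.add_apply, Pi.smul_apply, measure_univ,
    smul_eq_mul, mul_one]
  exact ENNReal.add_halves 1 |> fun h => by simpa using h

lemma std_mixG {τ : ℝ} (hτ0 : 0 ≤ τ) (hτ1 : τ ≤ 1) : Std (mixG τ) where
  prob := inferInstance
  int2 := (int_mixG gauss_sq).1
  mean := by
    rw [(int_mixG gauss_one).2, integral_id_gaussianReal, integral_id_gaussianReal]
    simp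
  var := by
    rw [(int_mixG gauss_sq).2, gauss_var, gauss_var, Real.coe_toNNReal _ (by linarith),
      Real.coe_toNNReal _ (by linarith)]
    ring

end Pool.Agent.X134.KC
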