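import Pool.Agent.X134.KC.Dens

/-!
# The limit of the lower bound for large degrees
-/

set_option autoImplicit false
open MeasureTheory ProbabilityTheory Filter Topology Set
open scoped ENNReal NNReal

namespace Pool.Agent.X134.KC

/-- power sums -/
noncomputable def TT (k : ℕ) (r : ℝ) (n : ℕ) : ℝ := ∑ j ∈ Finset.range (n + 1), (j : ℝ) ^ k * r ^ j

lemma ch_lim {r : ℝ} (hr : |r| < 1) (k : ℕ) :
    Tendsto (fun n : ℕ => ∑ j ∈ Finset.range (n + 1), ((j + k).choose k : ℝ) * r ^ j) atTop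
      (𝓝 (1 / (1 - r) ^ (k + 1))) := by
  have h := (hasSum_choose_mul_geometric_of_norm_lt_one k (r := r)
    (by rwa [Real.norm_eq_abs])).tendsto_sum_nat
  exact h.comp (tendsto_add_atTop_nat 1)

lemma ch1 (j : ℕ) : ((j + 1).choose 1 : ℝ) = j + 1 := by
  rw [Nat.choose_one_right]; push_cast; ring

lemma ch2 (j : ℕ) : ((j + 2).choose 2 : ℝ) = (j + 1) * (j + 2) / 2 := by
  have h := Nat.ascFactorial_eq_factorial_mul_choose j 2
  simp only [Nat.ascFactorial, Nat.factorial] at h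
  have h' : (((j + 1 + 1) * ((j + 1 + 0) * 1) : ℕ) : ℝ) = ((1 + 1) * ((0 + 1) * 1) * (j + 2).choose 2 : ℕ) := by
    exact_mod_cast h
  push_cast at h'
  linarith

lemma ch3 (j : ℕ) : ((j + 3).choose 3 : ℝ) = (j + 1) * (j + 2) * (j + 3) / 6 := by
  have h := Nat.ascFactorial_eq_factorial_mul_choose j 3
  simp only [Nat.ascFactorial, Nat.factorial] at h
  have h' : (((j + 1 + 2) * ((j + 1 + 1) * ((j + 1 + 0) * 1)) : ℕ) : ℝ) =
      ((2 + 1) * ((1 + 1) * ((0 + 1) * 1)) * (j + 3).choose 3 : ℕ) := by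
    exact_mod_cast h
  push_cast at h'
  linarith

lemma ch4 (j : ℕ) : ((j + 4).choose 4 : ℝ) = (j + 1) * (j + 2) * (j + 3) * (j + 4) / 24 := by
  have h := Nat.ascFactorial_eq_factorial_mul_choose j 4
  simp only [Nat.ascFactorial, Nat.factorial] at h
  have h' : (((j + 1 + 3) * ((j + 1 + 2) * ((j + 1 + 1) * ((j + 1 + 0) * 1))) : ℕ) : ℝ) =
      ((3 + 1) * ((2 + 1) * ((1 + 1) * ((0 + 1) * 1))) * (j + 4).choose 4 : ℕ) := by
    exact_mod_cast h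
  push_cast at h'
  linarith

section
variable {r : ℝ} (hr : |r| < 1)
include hr

lemma one_sub_pos' : 0 < 1 - r := by linarith [(abs_lt.1 hr).2]

lemma T0_lim : Tendsto (TT 0 r) atTop (𝓝 (1 / (1 - r))) := by
  have h := ch_lim hr 0
  simp only [Nat.choose_zero_right, Nat.cast_one, zero_add, pow_one] at h
  refine h.congr fun n => ?_
  unfold TT
  simp

lemma T1_lim : Tendsto (TT 1 r) atTop (𝓝 (r / (1 - r) ^ 2)) := by
  have h0 := ch_lim hr 0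
  have h1 := ch_lim hr 1
  have h := h1.sub h0
  have e : 1 / (1 - r) ^ (1 + 1) - 1 / (1 - r) ^ (0 + 1) = r / (1 - r) ^ 2 := by
    have := (one_sub_pos' hr).ne'
    field_simp
    ring
  rw [e] at h
  refine h.congr fun n => ?_
  unfold TT
  rw [← Finset.sum_sub_distrib]
  refine Finset.sum_congr rfl fun j _ => ?_
  rw [ch1, Nat.choose_zero_right]
  push_cast
  ring

lemma T2_lim : Tendsto (TT 2 r) atTop (𝓝 (r * (1 + r) / (1 - r) ^ 3)) := by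
  have h0 := ch_lim hr 0
  have h1 := ch_lim hr 1
  have h2 := ch_lim hr 2
  have h := ((h2.const_mul 2).sub (h1.const_mul 3)).add h0
  have e : 2 * (1 / (1 - r) ^ (2 + 1)) - 3 * (1 / (1 - r) ^ (1 + 1)) + 1 / (1 - r) ^ (0 + 1) =
      r * (1 + r) / (1 - r) ^ 3 := by
    have := (one_sub_pos' hr).ne'
    field_simp
    ring
  rw [e] at h
  refine h.congr fun n => ?_
  unfold TT
  rw [Finset.mul_sum, Finset.mul_sum, ← Finset.sum_sub_distrib, ← Finset.sum_add_distrib]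
  refine Finset.sum_congr rfl fun j _ => ?_
  rw [ch1, ch2, Nat.choose_zero_right]
  push_cast
  ring

lemma T3_lim : Tendsto (TT 3 r) atTop (𝓝 (r * (1 + 4 * r + r ^ 2) / (1 - r) ^ 4)) := by
  have h0 := ch_lim hr 0
  have h1 := ch_lim hr 1
  have h2 := ch_lim hr 2
  have h3 := ch_lim hr 3
  have h := (((h3.const_mul 6).sub (h2.const_mul 12)).add (h1.const_mul 7)).sub h0
  have e : 6 * (1 / (1 - r) ^ (3 + 1)) - 12 * (1 / (1 - r) ^ (2 + 1)) + 7 * (1 / (1 - r) ^ (1 + 1)) -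
      1 / (1 - r) ^ (0 + 1) = r * (1 + 4 * r + r ^ 2) / (1 - r) ^ 4 := by
    have := (one_sub_pos' hr).ne'
    field_simp
    ring
  rw [e] at h
  refine h.congr fun n => ?_
  unfold TT
  rw [Finset.mul_sum, Finset.mul_sum, Finset.mul_sum, ← Finset.sum_sub_distrib,
    ← Finset.sum_add_distrib, ← Finset.sum_sub_distrib]
  refine Finset.sum_congr rfl fun j _ => ?_
  rw [ch1, ch2, ch3, Nat.choose_zero_right]
  push_cast
  ring

lemma T4_lim : Tendsto (TT 4 r) atTop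
    (𝓝 (r * (1 + 11 * r + 11 * r ^ 2 + r ^ 3) / (1 - r) ^ 5)) := by
  have h0 := ch_lim hr 0
  have h1 := ch_lim hr 1
  have h2 := ch_lim hr 2
  have h3 := ch_lim hr 3
  have h4 := ch_lim hr 4
  have h := ((((h4.const_mul 24).sub (h3.const_mul 60)).add (h2.const_mul 50)).sub
    (h1.const_mul 15)).add h0
  have e : 24 * (1 / (1 - r) ^ (4 + 1)) - 60 * (1 / (1 - r) ^ (3 + 1)) +
      50 * (1 / (1 - r) ^ (2 + 1)) - 15 * (1 / (1 - r) ^ (1 + 1)) + 1 / (1 - r) ^ (0 + 1) =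
      r * (1 + 11 * r + 11 * r ^ 2 + r ^ 3) / (1 - r) ^ 5 := by
    have := (one_sub_pos' hr).ne'
    field_simp
    ring
  rw [e] at h
  refine h.congr fun n => ?_
  unfold TT
  rw [Finset.mul_sum, Finset.mul_sum, Finset.mul_sum, Finset.mul_sum, ← Finset.sum_sub_distrib,
    ← Finset.sum_add_distrib, ← Finset.sum_sub_distrib, ← Finset.sum_add_distrib]
  refine Finset.sum_congr rfl fun j _ => ?_
  rw [ch1, ch2, ch3, ch4, Nat.choose_zero_right]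
  push_cast
  ring

end

section
variable (n : ℕ) (x : ℝ)

lemma A0_TT : A0 n x = TT 0 (x ^ 2) n := by
  unfold A0 TT
  rw [Finset.sum_range]
  refine Finset.sum_congr rfl fun j _ => ?_
  rw [pow_zero, one_mul]

lemma mw_TT : mw n x = TT 1 (x ^ 2) n / TT 0 (x ^ 2) n := by
  unfold mw pw
  rw [A0_TT]
  unfold TT
  rw [Finset.sum_range (n := n + 1) (f := fun j => (j : ℝ) ^ 1 * (x ^ 2) ^ j), Finset.sum_div]
  refine Finset.sum_congr rfl fun j _ => ?_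
  rw [pow_one]
  ring

/-- the second moments -/
lemma sum_d2 (w : Fin (n + 1) → ℝ) (m : ℝ) : ∑ j : Fin (n + 1), w j * (((j : ℕ) : ℝ) - m) ^ 2 =
    (∑ j : Fin (n + 1), ((j : ℕ) : ℝ) ^ 2 * w j) - 2 * m * (∑ j : Fin (n + 1), ((j : ℕ) : ℝ) ^ 1 * w j) +
      m ^ 2 * (∑ j : Fin (n + 1), ((j : ℕ) : ℝ) ^ 0 * w j) := by
  rw [Finset.mul_sum, Finset.mul_sum, ← Finset.sum_sub_distrib, ← Finset.sum_add_distrib]
  refine Finset.sum_congr rfl fun j _ => ?_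
  ring

/-- the fourth moments -/
lemma sum_d4 (w : Fin (n + 1) → ℝ) (m : ℝ) : ∑ j : Fin (n + 1), w j * (((j : ℕ) : ℝ) - m) ^ 4 =
    (∑ j : Fin (n + 1), ((j : ℕ) : ℝ) ^ 4 * w j) - 4 * m * (∑ j : Fin (n + 1), ((j : ℕ) : ℝ) ^ 3 * w j) +
      6 * m ^ 2 * (∑ j : Fin (n + 1), ((j : ℕ) : ℝ) ^ 2 * w j) -
      4 * m ^ 3 * (∑ j : Fin (n + 1), ((j : ℕ) : ℝ) ^ 1 * w j) +
      m ^ 4 * (∑ j : Fin (n + 1), ((j : ℕ) : ℝ) ^ 0 * w j) := by
  rw [Finset.mul_sum, Finset.mul_sum, Finset.mul_sum, Finset.mul_sum, ← Finset.sum_sub_distrib,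
    ← Finset.sum_add_distrib, ← Finset.sum_sub_distrib, ← Finset.sum_add_distrib]
  refine Finset.sum_congr rfl fun j _ => ?_
  ring

lemma pw_TT (k : ℕ) : ∑ j : Fin (n + 1), ((j : ℕ) : ℝ) ^ k * pw n x j =
    TT k (x ^ 2) n / TT 0 (x ^ 2) n := by
  unfold pw
  have e : TT k (x ^ 2) n = ∑ j : Fin (n + 1), ((j : ℕ) : ℝ) ^ k * (x ^ 2) ^ (j : ℕ) := by
    unfold TT
    rw [Finset.sum_range]
  rw [A0_TT, e, Finset.sum_div]
  refine Finset.sum_congr rfl fun j _ => ?_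
  ring

lemma pw2_TT (k : ℕ) : ∑ j : Fin (n + 1), ((j : ℕ) : ℝ) ^ k * pw n x j ^ 2 =
    TT k ((x ^ 2) ^ 2) n / TT 0 (x ^ 2) n ^ 2 := by
  unfold pw
  have e : TT k ((x ^ 2) ^ 2) n =
      ∑ j : Fin (n + 1), ((j : ℕ) : ℝ) ^ k * ((x ^ 2) ^ 2) ^ (j : ℕ) := by
    unfold TT
    rw [Finset.sum_range]
  rw [A0_TT, e, Finset.sum_div]
  refine Finset.sum_congr rfl fun j _ => ?_
  rw [div_pow, ← pow_mul (x ^ 2) (j : ℕ) 2, ← pow_mul (x ^ 2) 2 (j : ℕ), mul_comm (j : ℕ) 2]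
  ring

lemma Vw_TT : Vw n x = TT 2 (x ^ 2) n / TT 0 (x ^ 2) n -
    2 * mw n x * (TT 1 (x ^ 2) n / TT 0 (x ^ 2) n) +
      mw n x ^ 2 * (TT 0 (x ^ 2) n / TT 0 (x ^ 2) n) := by
  unfold Vw dw
  rw [sum_d2, pw_TT, pw_TT, pw_TT]

lemma S0_TT : ∑ j : Fin (n + 1), pw n x j ^ 2 = TT 0 ((x ^ 2) ^ 2) n / TT 0 (x ^ 2) n ^ 2 := by
  rw [← pw2_TT]
  refine Finset.sum_congr rfl fun j _ => ?_
  rw [pow_zero, one_mul]

lemma S2_TT : ∑ j : Fin (n + 1), pw n x j ^ 2 * dw n x j ^ 2 =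
    TT 2 ((x ^ 2) ^ 2) n / TT 0 (x ^ 2) n ^ 2 -
    2 * mw n x * (TT 1 ((x ^ 2) ^ 2) n / TT 0 (x ^ 2) n ^ 2) +
      mw n x ^ 2 * (TT 0 ((x ^ 2) ^ 2) n / TT 0 (x ^ 2) n ^ 2) := by
  unfold dw
  rw [sum_d2, pw2_TT, pw2_TT, pw2_TT]

lemma S4_TT : ∑ j : Fin (n + 1), pw n x j ^ 2 * dw n x j ^ 4 =
    TT 4 ((x ^ 2) ^ 2) n / TT 0 (x ^ 2) n ^ 2 -
    4 * mw n x * (TT 3 ((x ^ 2) ^ 2) n / TT 0 (x ^ 2) n ^ 2) +
    6 * mw n x ^ 2 * (TT 2 ((x ^ 2) ^ 2) n / TT 0 (x ^ 2) n ^ 2) -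
    4 * mw n x ^ 3 * (TT 1 ((x ^ 2) ^ 2) n / TT 0 (x ^ 2) n ^ 2) +
      mw n x ^ 4 * (TT 0 ((x ^ 2) ^ 2) n / TT 0 (x ^ 2) n ^ 2) := by
  unfold dw
  rw [sum_d4, pw2_TT, pw2_TT, pw2_TT, pw2_TT, pw2_TT]

end

/-- the limit of the lower bound -/
noncomputable def gInf (τ q : ℝ) : ℝ :=
  1 / (1 - q) * (1 + τ ^ 2 * (3 / 8 * ((1 - q) / (1 + q)) -
    3 / 4 * ((1 - q) / (1 + q) * (2 * q / (1 + q) ^ 2)) -
    1 / 8 * ((1 - q) / (1 + q) * ((q ^ 4 - 4 * q ^ 3 + 14 * q ^ 2 - 4 * q + 1) / (1 + q) ^ 4))) -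
    10 * τ ^ 3 * ((1 - q) / (1 + q) +
      (1 - q) / (1 + q) * ((q ^ 4 - 4 * q ^ 3 + 14 * q ^ 2 - 4 * q + 1) / (1 + q) ^ 4)))

theorem Gn_lim (τ : ℝ) {x : ℝ} (hx : 0 < x) (hx1 : x < 1) :
    Tendsto (fun n => Gn τ n x) atTop (𝓝 (gInf τ (x ^ 2))) := by
  obtain ⟨q, hq⟩ : ∃ q, q = x ^ 2 := ⟨_, rfl⟩
  have hq0 : 0 < q := by rw [hq]; positivity
  have hq1 : q < 1 := by rw [hq]; nlinarith
  have hqa : |q| < 1 := by rw [abs_of_pos hq0]; exact hq1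
  have hq2a : |q ^ 2| < 1 := by rw [abs_of_pos (by positivity)]; nlinarith
  have h1q : (1 : ℝ) - q ≠ 0 := by linarith
  have h1q' : (1 : ℝ) + q ≠ 0 := by linarith
  have h1q2 : (1 : ℝ) - q ^ 2 ≠ 0 := by nlinarith
  have e1q2 : (1 : ℝ) - q ^ 2 = (1 - q) * (1 + q) := by ring
  have t0 := T0_lim hqa
  have t1 := T1_lim hqa
  have t2 := T2_lim hqa
  have s0 := T0_lim hq2a
  have s1 := T1_lim hq2a
  have s2 := T2_lim hq2a
  have s3 := T3_lim hq2a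
  have s4 := T4_lim hq2a
  have ht0 : (1 : ℝ) / (1 - q) ≠ 0 := by positivity
  have m : Tendsto (fun n => mw n x) atTop (𝓝 (q / (1 - q))) := by
    have h := t1.div t0 ht0
    have e : q / (1 - q) ^ 2 / (1 / (1 - q)) = q / (1 - q) := by field_simp
    rw [e] at h
    refine h.congr fun n => ?_
    rw [mw_TT, hq]
    rfl
  have r0 := t0.div t0 ht0
  have r1 := t1.div t0 ht0
  have r2 := t2.div t0 ht0
  have ht02 : ((1 : ℝ) / (1 - q)) ^ 2 ≠ 0 := by positivity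
  have u0 := s0.div (t0.pow 2) ht02
  have u1 := s1.div (t0.pow 2) ht02
  have u2 := s2.div (t0.pow 2) ht02
  have u3 := s3.div (t0.pow 2) ht02
  have u4 := s4.div (t0.pow 2) ht02
  have V : Tendsto (fun n => Vw n x) atTop (𝓝 (q / (1 - q) ^ 2)) := by
    have h := (r2.sub ((m.const_mul 2).mul r1)).add ((m.pow 2).mul r0)
    have e : q * (1 + q) / (1 - q) ^ 3 / (1 / (1 - q)) -
        2 * (q / (1 - q)) * (q / (1 - q) ^ 2 / (1 / (1 - q))) +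
        (q / (1 - q)) ^ 2 * (1 / (1 - q) / (1 / (1 - q))) = q / (1 - q) ^ 2 := by
      field_simp
      ring
    rw [e] at h
    refine h.congr fun n => ?_
    rw [Vw_TT, hq]
    rfl
  have P0 : Tendsto (fun n => ∑ j : Fin (n + 1), pw n x j ^ 2) atTop (𝓝 ((1 - q) / (1 + q))) := by
    have e : 1 / (1 - q ^ 2) / (1 / (1 - q)) ^ 2 = (1 - q) / (1 + q) := by
      rw [e1q2]
      field_simp
    rw [e] at u0
    refine u0.congr fun n => ?_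
    rw [S0_TT, hq]
    rfl
  have P2 : Tendsto (fun n => ∑ j : Fin (n + 1), pw n x j ^ 2 * dw n x j ^ 2) atTop
      (𝓝 (2 * q ^ 2 / ((1 - q) * (1 + q) ^ 3))) := by
    have h := (u2.sub ((m.const_mul 2).mul u1)).add ((m.pow 2).mul u0)
    have e : q ^ 2 * (1 + q ^ 2) / (1 - q ^ 2) ^ 3 / (1 / (1 - q)) ^ 2 -
        2 * (q / (1 - q)) * (q ^ 2 / (1 - q ^ 2) ^ 2 / (1 / (1 - q)) ^ 2) +
        (q / (1 - q)) ^ 2 * (1 / (1 - q ^ 2) / (1 / (1 - q)) ^ 2) =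
        2 * q ^ 2 / ((1 - q) * (1 + q) ^ 3) := by
      rw [e1q2]
      field_simp
      ring
    rw [e] at h
    refine h.congr fun n => ?_
    rw [S2_TT, hq]
    rfl
  have P4 : Tendsto (fun n => ∑ j : Fin (n + 1), pw n x j ^ 2 * dw n x j ^ 4) atTop
      (𝓝 (q ^ 2 * (q ^ 4 - 4 * q ^ 3 + 14 * q ^ 2 - 4 * q + 1) / ((1 - q) ^ 3 * (1 + q) ^ 5))) := by
    have h := ((((u4.sub ((m.const_mul 4).mul u3)).add (((m.pow 2).const_mul 6).mul u2)).sub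
      (((m.pow 3).const_mul 4).mul u1)).add ((m.pow 4).mul u0))
    have e : q ^ 2 * (1 + 11 * q ^ 2 + 11 * (q ^ 2) ^ 2 + (q ^ 2) ^ 3) / (1 - q ^ 2) ^ 5 /
        (1 / (1 - q)) ^ 2 -
        4 * (q / (1 - q)) * (q ^ 2 * (1 + 4 * q ^ 2 + (q ^ 2) ^ 2) / (1 - q ^ 2) ^ 4 /
          (1 / (1 - q)) ^ 2) +
        6 * (q / (1 - q)) ^ 2 * (q ^ 2 * (1 + q ^ 2) / (1 - q ^ 2) ^ 3 / (1 / (1 - q)) ^ 2) -
        4 * (q / (1 - q)) ^ 3 * (q ^ 2 / (1 - q ^ 2) ^ 2 / (1 / (1 - q)) ^ 2) +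
        (q / (1 - q)) ^ 4 * (1 / (1 - q ^ 2) / (1 / (1 - q)) ^ 2) =
        q ^ 2 * (q ^ 4 - 4 * q ^ 3 + 14 * q ^ 2 - 4 * q + 1) / ((1 - q) ^ 3 * (1 + q) ^ 5) := by
      rw [e1q2]
      field_simp
      ring
    rw [e] at h
    refine h.congr fun n => ?_
    rw [S4_TT, hq]
    rfl
  have hV0 : q / (1 - q) ^ 2 ≠ 0 := by positivity
  have hV02 : (q / (1 - q) ^ 2) ^ 2 ≠ 0 := by positivity
  have Q2 := P2.div V hV0
  have Q4 := P4.div (V.pow 2) hV02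
  have e2 : 2 * q ^ 2 / ((1 - q) * (1 + q) ^ 3) / (q / (1 - q) ^ 2) =
      (1 - q) / (1 + q) * (2 * q / (1 + q) ^ 2) := by
    field_simp
  have e4 : q ^ 2 * (q ^ 4 - 4 * q ^ 3 + 14 * q ^ 2 - 4 * q + 1) / ((1 - q) ^ 3 * (1 + q) ^ 5) /
      (q / (1 - q) ^ 2) ^ 2 =
      (1 - q) / (1 + q) * ((q ^ 4 - 4 * q ^ 3 + 14 * q ^ 2 - 4 * q + 1) / (1 + q) ^ 4) := by
    field_simp
  rw [e2] at Q2
  rw [e4] at Q4
  have Sq : Tendsto (fun n => 1 / x * Real.sqrt (Vw n x)) atTop (𝓝 (1 / (1 - q))) := by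
    have h := (V.sqrt).const_mul (1 / x)
    have e : 1 / x * Real.sqrt (q / (1 - q) ^ 2) = 1 / (1 - q) := by
      have : q / (1 - q) ^ 2 = (x / (1 - q)) ^ 2 := by rw [div_pow, ← hq]
      rw [this, Real.sqrt_sq (div_nonneg hx.le (by linarith))]
      field_simp
    rwa [e] at h
  unfold gInf
  rw [← hq]
  unfold Gn
  exact Sq.mul ((((((P0.const_mul (3 / 8)).sub (Q2.const_mul (3 / 4))).sub
    (Q4.const_mul (1 / 8))).const_mul (τ ^ 2)).const_add 1).sub ((P0.add Q4).const_mul (10 * τ ^ 3)))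

end Pool.Agent.X134.KC
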