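import Pool.Agent.X134.KC.Calc

/-!
# The lower bound of the mean number of zeros
-/

set_option autoImplicit false
open MeasureTheory ProbabilityTheory Filter Topology Set
open scoped ENNReal NNReal
open Kac764

namespace Pool.Agent.X134.KC

/-! ### joint measurability and bounds -/

lemma wt_meas (τ : ℝ) {n : ℕ} (j : ℕ) : Measurable fun η : Fin (n + 1) → ℝ => wt τ η j := by
  unfold wt
  exact (measurable_const.add (((measurable_pi_apply j).comp (ext_meas n)).const_mul τ)).sqrt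

lemma rho_meas (τ : ℝ) (n : ℕ) :
    Measurable fun z : (Fin (n + 1) → ℝ) × ℝ => rhoW (wt τ z.1) n z.2 := by
  have hw : ∀ j : ℕ, Measurable fun z : (Fin (n + 1) → ℝ) × ℝ => wt τ z.1 j := fun j =>
    (wt_meas τ j).comp measurable_fst
  have hA : Measurable fun z : (Fin (n + 1) → ℝ) × ℝ => WA (wt τ z.1) n z.2 := by
    unfold WA
    refine Finset.measurable_sum _ fun j _ => ?_
    exact ((hw j).mul (measurable_snd.pow_const j)).pow_const 2
  have hB : Measurable fun z : (Fin (n + 1) → ℝ) × ℝ => WB (wt τ z.1) n z.2 := by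
    unfold WB
    refine Finset.measurable_sum _ fun j _ => ?_
    exact ((hw j).mul (measurable_snd.pow_const j)).mul
      ((hw j).mul ((measurable_snd.pow_const (j - 1)).const_mul _))
  have hC : Measurable fun z : (Fin (n + 1) → ℝ) × ℝ => WC (wt τ z.1) n z.2 := by
    unfold WC
    refine Finset.measurable_sum _ fun j _ => ?_
    exact ((hw j).mul ((measurable_snd.pow_const (j - 1)).const_mul _)).pow_const 2
  unfold rhoW
  exact (((hA.mul hC).sub (hB.pow_const 2)).sqrt).div hA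

lemma WC_nonneg (s : ℕ → ℝ) (n : ℕ) (x : ℝ) : 0 ≤ WC s n x := by
  unfold WC
  positivity

lemma rho_nonneg (s : ℕ → ℝ) (n : ℕ) (x : ℝ) : 0 ≤ rhoW s n x := by
  unfold rhoW WA
  positivity

/-- a crude bound for the density -/
lemma rho_le {s : ℕ → ℝ} {n : ℕ} (h0 : 1 / 2 ≤ s 0 ^ 2) (hs : ∀ j < n + 1, s j ^ 2 ≤ 2) {x : ℝ}
    (hx : |x| ≤ 1) : rhoW s n x ≤ 4 * ((n : ℝ) + 1) ^ 3 := by
  have hs0 : s 0 ≠ 0 := by
    intro h
    rw [h] at h0
    norm_num at h0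
  have hA : 1 / 2 ≤ WA s n x := by
    unfold WA
    rw [Finset.sum_range_succ']
    have : 0 ≤ ∑ k ∈ Finset.range n, (s (k + 1) * x ^ (k + 1)) ^ 2 := by positivity
    rw [pow_zero, mul_one]
    linarith
  have hn0 : (0 : ℝ) ≤ n := Nat.cast_nonneg n
  have hC : WC s n x ≤ 2 * ((n : ℝ) + 1) ^ 3 := by
    unfold WC
    calc ∑ j ∈ Finset.range (n + 1), (s j * ((j : ℝ) * x ^ (j - 1))) ^ 2 ≤
        ∑ j ∈ Finset.range (n + 1), 2 * ((n : ℝ) + 1) ^ 2 := by
          refine Finset.sum_le_sum fun j hj => ?_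
          have hj' := Finset.mem_range.1 hj
          rw [mul_pow, mul_pow]
          have h1 : (x ^ (j - 1)) ^ 2 ≤ 1 := by
            rw [← pow_mul, mul_comm, pow_mul, ← sq_abs]
            exact pow_le_one₀ (sq_nonneg _) (by nlinarith [abs_nonneg x])
          have h2 : (j : ℝ) ^ 2 ≤ ((n : ℝ) + 1) ^ 2 := by
            refine pow_le_pow_left₀ (Nat.cast_nonneg j) ?_ 2
            exact_mod_cast hj'.le
          have h3 : (j : ℝ) ^ 2 * (x ^ (j - 1)) ^ 2 ≤ ((n : ℝ) + 1) ^ 2 * 1 :=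
            mul_le_mul h2 h1 (sq_nonneg _) (sq_nonneg _)
          have h4 := mul_le_mul (hs j hj') h3 (by positivity) (by norm_num)
          linarith
      _ = 2 * ((n : ℝ) + 1) ^ 3 := by
          rw [Finset.sum_const, Finset.card_range, nsmul_eq_mul]
          push_cast
          ring
  have hA0 : 0 < WA s n x := by linarith
  unfold rhoW
  rw [div_le_iff₀ hA0, Real.sqrt_le_left (by positivity)]
  have hC0 := WC_nonneg s n x
  have h5 : WA s n x * WC s n x - WB s n x ^ 2 ≤ WA s n x * WC s n x := by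
    linarith [sq_nonneg (WB s n x)]
  refine h5.trans ?_
  have h6 : WA s n x * WC s n x ≤ WA s n x * (2 * ((n : ℝ) + 1) ^ 3) :=
    mul_le_mul_of_nonneg_left hC hA0.le
  refine h6.trans ?_
  have h7 : (4 * ((n : ℝ) + 1) ^ 3 * WA s n x) ^ 2 =
      WA s n x * (WA s n x * (16 * (((n : ℝ) + 1) ^ 3 * ((n : ℝ) + 1) ^ 3))) := by ring
  rw [h7]
  refine mul_le_mul_of_nonneg_left ?_ hA0.le
  have h8 : (1 : ℝ) ≤ ((n : ℝ) + 1) ^ 3 := one_le_pow₀ (by linarith)
  have h9 : ((n : ℝ) + 1) ^ 3 ≤ ((n : ℝ) + 1) ^ 3 * ((n : ℝ) + 1) ^ 3 := by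
    nlinarith
  have h10 : 1 / 2 * (16 * (((n : ℝ) + 1) ^ 3 * ((n : ℝ) + 1) ^ 3)) ≤
      WA s n x * (16 * (((n : ℝ) + 1) ^ 3 * ((n : ℝ) + 1) ^ 3)) :=
    mul_le_mul_of_nonneg_right hA (by positivity)
  linarith

lemma wt_sq {τ : ℝ} (hτ0 : 0 ≤ τ) (hτ : τ ≤ 1 / 8) {n : ℕ} {η : Fin (n + 1) → ℝ}
    (hη : ∀ j, η j = 1 ∨ η j = -1) {j : ℕ} (hj : j < n + 1) :
    1 / 2 ≤ wt τ η j ^ 2 ∧ wt τ η j ^ 2 ≤ 2 := by
  unfold wt ext
  rw [dif_pos hj]
  rcases hη ⟨j, hj⟩ with h | h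
  · rw [h, Real.sq_sqrt (by linarith)]
    constructor <;> linarith
  · rw [h, Real.sq_sqrt (by linarith)]
    constructor <;> linarith

/-- the mean density -/
noncomputable def DD (τ : ℝ) (n : ℕ) (x : ℝ) : ℝ := ∫ η, rhoW (wt τ η) n x ∂(PC (n + 1))

lemma rho_int {τ : ℝ} (hτ0 : 0 ≤ τ) (hτ : τ ≤ 1 / 8) (n : ℕ) {r : ℝ} (hr1 : r < 1) :
    Integrable (fun z : (Fin (n + 1) → ℝ) × ℝ => rhoW (wt τ z.1) n z.2)
      ((PC (n + 1)).prod (volume.restrict (Ioc 0 r))) := by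
  refine Integrable.of_bound (rho_meas τ n).aestronglyMeasurable (4 * ((n : ℝ) + 1) ^ 3) ?_
  have h1 : ∀ᵐ z : (Fin (n + 1) → ℝ) × ℝ ∂((PC (n + 1)).prod (volume.restrict (Ioc 0 r))),
      ∀ j, z.1 j = 1 ∨ z.1 j = -1 :=
    (Measure.quasiMeasurePreserving_fst (μ := PC (n + 1)) (ν := volume.restrict (Ioc 0 r))).ae pc_ae
  have h2 : ∀ᵐ z : (Fin (n + 1) → ℝ) × ℝ ∂((PC (n + 1)).prod (volume.restrict (Ioc 0 r))),
      z.2 ∈ Ioc 0 r :=
    (Measure.quasiMeasurePreserving_snd (μ := PC (n + 1)) (ν := volume.restrict (Ioc 0 r))).ae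
      (ae_restrict_mem measurableSet_Ioc)
  filter_upwards [h1, h2] with z hz1 hz2
  rw [Real.norm_eq_abs, abs_of_nonneg (rho_nonneg _ _ _)]
  refine rho_le (wt_sq hτ0 hτ hz1 (Nat.succ_pos n)).1 (fun j hj => (wt_sq hτ0 hτ hz1 hj).2) ?_
  rw [abs_of_pos hz2.1]
  exact hz2.2.trans hr1.le

lemma DD_int {τ : ℝ} (hτ0 : 0 ≤ τ) (hτ : τ ≤ 1 / 8) (n : ℕ) {r : ℝ} (hr1 : r < 1) :
    Integrable (DD τ n) (volume.restrict (Ioc 0 r)) :=
  (rho_int hτ0 hτ n hr1).integral_prod_right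

lemma mean_pos_side {τ : ℝ} (hτ0 : 0 ≤ τ) (hτ : τ ≤ 1 / 8) {n : ℕ} (hn : 1 ≤ n) {r : ℝ} (hr0 : 0 < r)
    (hr1 : r < 1) : ∫ ω, (nz (kac n ω) (Ioo 0 r) : ℝ) ∂(PP (mixL τ)) =
      1 / Real.pi * ∫ x in Ioc 0 r, DD τ n x := by
  rw [mix_formula hτ0 (by linarith) hn hr0, integral_const_mul]
  congr 1
  have e : ∀ η : Fin (n + 1) → ℝ, ∫ x in (0 : ℝ)..r, rhoW (wt τ η) n x =
      ∫ x in Ioc 0 r, rhoW (wt τ η) n x := fun η => intervalIntegral.integral_of_le hr0.le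
  simp only [e]
  exact integral_integral_swap (rho_int hτ0 hτ n hr1)

lemma rho_even (s : ℕ → ℝ) (n : ℕ) (x : ℝ) : rhoW s n (-x) = rhoW s n x := by
  have hA : WA s n (-x) = WA s n x := by
    unfold WA
    refine Finset.sum_congr rfl fun j _ => ?_
    rw [mul_pow, mul_pow, ← pow_mul, ← pow_mul, mul_comm j 2, pow_mul, pow_mul, neg_sq]
  have hB : WB s n (-x) = - WB s n x := by
    unfold WB
    rw [← Finset.sum_neg_distrib]
    refine Finset.sum_congr rfl fun j _ => ?_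
    rcases Nat.eq_zero_or_pos j with rfl | hj
    · simp
    · obtain ⟨k, rfl⟩ := Nat.exists_eq_succ_of_ne_zero hj.ne'
      rw [Nat.succ_sub_one, Nat.succ_eq_add_one]
      have : (-x) ^ (k + 1) * (-x) ^ k = -(x ^ (k + 1) * x ^ k) := by
        rw [← pow_add, ← pow_add, Odd.neg_pow ⟨k, by ring⟩]
      linear_combination (s (k + 1) * s (k + 1) * ((k + 1 : ℕ) : ℝ)) * this
  have hC : WC s n (-x) = WC s n x := by
    unfold WC
    refine Finset.sum_congr rfl fun j _ => ?_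
    rw [mul_pow, mul_pow, mul_pow, mul_pow, ← pow_mul, ← pow_mul, mul_comm (j - 1) 2, pow_mul,
      pow_mul, neg_sq]
  unfold rhoW
  rw [hA, hB, hC, neg_sq]

lemma mean_neg_side {τ : ℝ} (hτ0 : 0 ≤ τ) (hτ : τ ≤ 1 / 8) {n : ℕ} (hn : 1 ≤ n) {r : ℝ} (hr0 : 0 < r) :
    ∫ ω, (nz (kac n ω) (Ioo (-r) 0) : ℝ) ∂(PP (mixL τ)) =
      ∫ ω, (nz (kac n ω) (Ioo 0 r) : ℝ) ∂(PP (mixL τ)) := by
  rw [mix_formula hτ0 (by linarith) hn hr0, mix_formula hτ0 (by linarith) hn (by linarith)]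
  refine integral_congr_ae (Eventually.of_forall fun η => ?_)
  show 1 / Real.pi * _ = 1 / Real.pi * _
  congr 1
  have h := intervalIntegral.integral_comp_neg (a := 0) (b := r) (fun x => rhoW (wt τ η) n x)
  simp only [rho_even, neg_zero] at h
  exact h.symm

/-- **The lower bound.** -/
theorem lower_bd {τ : ℝ} (hτ0 : 0 ≤ τ) (hτ : τ ≤ 1 / 8) {r : ℝ} (hr0 : 0 < r) (hr1 : r < 1) {E : ℝ}
    (hE : Tendsto (fun n : ℕ => ∫ ω, (nz (kac n ω) (Ioo 0 r) : ℝ) ∂(PP (mixL τ))) atTop (𝓝 E)) :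
    ∫ x in (0 : ℝ)..r, hh τ x ≤ Real.pi * E := by
  have hpi := Real.pi_pos
  have hE' : Tendsto (fun n : ℕ => ∫ x in Ioc 0 r, DD τ n x) atTop (𝓝 (Real.pi * E)) := by
    refine (hE.const_mul Real.pi).congr' ?_
    filter_upwards [eventually_ge_atTop 1] with n hn
    rw [mean_pos_side hτ0 hτ hn hr0 hr1]
    field_simp
  have hDD0 : ∀ n x, 0 ≤ DD τ n x := fun n x => integral_nonneg fun η => rho_nonneg _ _ _
  have hE0 : 0 ≤ Real.pi * E :=
    ge_of_tendsto' hE' fun n => integral_nonneg fun x => hDD0 n x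
  have hfatou := lintegral_liminf_le' (μ := volume.restrict (Ioc 0 r)) (u := atTop)
    (f := fun (n : ℕ) x => ENNReal.ofReal (DD τ n x))
    fun n => (DD_int hτ0 hτ n hr1).aestronglyMeasurable.aemeasurable.ennreal_ofReal
  have e1 : ∀ n, ∫⁻ x in Ioc 0 r, ENNReal.ofReal (DD τ n x) =
      ENNReal.ofReal (∫ x in Ioc 0 r, DD τ n x) := fun n =>
    (ofReal_integral_eq_lintegral_ofReal (DD_int hτ0 hτ n hr1)
      (Eventually.of_forall fun x => hDD0 n x)).symm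
  have e2 : liminf (fun n => ∫⁻ x in Ioc 0 r, ENNReal.ofReal (DD τ n x)) atTop =
      ENNReal.ofReal (Real.pi * E) := by
    simp only [e1]
    exact (ENNReal.tendsto_ofReal hE').liminf_eq
  rw [e2] at hfatou
  have hcont := hh_contOn τ hr0.le hr1
  have hhi : IntegrableOn (hh τ) (Ioc 0 r) := by
    exact (hcont.intervalIntegrable (μ := volume)).1
  have e3 : ENNReal.ofReal (∫ x in Ioc 0 r, hh τ x) ≤
      ∫⁻ x in Ioc 0 r, liminf (fun n => ENNReal.ofReal (DD τ n x)) atTop := by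
    rw [ofReal_integral_eq_lintegral_ofReal hhi]
    · refine setLIntegral_mono_ae' measurableSet_Ioc (Eventually.of_forall fun x hx => ?_)
      have h1 := Gn_lim τ hx.1 (hx.2.trans_lt hr1)
      have h2 : ENNReal.ofReal (gInf τ (x ^ 2)) ≤
          liminf (fun n => ENNReal.ofReal (DD τ n x)) atTop := by
        rw [← (ENNReal.tendsto_ofReal h1).liminf_eq]
        refine liminf_le_liminf ?_
        filter_upwards [eventually_ge_atTop 1] with n hn
        exact ENNReal.ofReal_le_ofReal (mean_density n hx.1 hn hτ0 hτ)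
      refine le_trans (ENNReal.ofReal_le_ofReal ?_) h2
      have hx1 : x < 1 := hx.2.trans_lt hr1
      exact gInf_ge hτ0 (sq_nonneg x) (by nlinarith [hx.1])
    · refine (ae_restrict_mem measurableSet_Ioc).mono fun x hx => ?_
      exact hh_nonneg hτ0 hτ hx.1.le (hx.2.trans_lt hr1)
  rw [intervalIntegral.integral_of_le hr0.le]
  exact (ENNReal.ofReal_le_ofReal_iff hE0).1 (e3.trans hfatou)

end Pool.Agent.X134.KC
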