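import Pool.Agent.X134.KC.Law
import Pool.Agent.Helper764.KacFin
import Pool.Agent.Helper764.KacH2

/-!
# The constants
-/

set_option autoImplicit false
open MeasureTheory ProbabilityTheory Filter Topology Set
open scoped ENNReal NNReal
open Kac764

namespace Pool.Agent.X134.KC

/-- **The lower bound of the constant for the mixture.** -/
theorem L_mix {τ : ℝ} (hτ0 : 0 ≤ τ) (hτ : τ ≤ 1 / 8) (hμ : Std (mixL τ)) {L : ℝ}
    (hL : Tendsto (fun r : ℝ => 2 * ∫ ω, (Ninf ω {x : ℝ | 0 < |x| ∧ |x| < r} : ℝ) ∂(PP (mixL τ))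
          - (2 / Real.pi) * Real.log ((1 + r) / (1 - r))) (𝓝[<] 1) (𝓝 L)) :
    15 / 128 * τ ^ 2 - 80 / Real.pi * τ ^ 3 ≤ L := by
  have hpi := Real.pi_pos
  have hlim : Tendsto (fun r : ℝ => 4 / Real.pi * (τ ^ 2 * FP r - 20 * τ ^ 3 * r)) (𝓝[<] 1)
      (𝓝 (4 / Real.pi * (τ ^ 2 * (15 * Real.pi / 512) - 20 * τ ^ 3 * 1))) := by
    have h1 : Tendsto (fun r : ℝ => r) (𝓝[<] 1) (𝓝 1) := tendsto_id.mono_left nhdsWithin_le_nhds
    exact ((FP_lim.const_mul (τ ^ 2)).sub (h1.const_mul (20 * τ ^ 3))).const_mul _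
  have e : 4 / Real.pi * (τ ^ 2 * (15 * Real.pi / 512) - 20 * τ ^ 3 * 1) =
      15 / 128 * τ ^ 2 - 80 / Real.pi * τ ^ 3 := by
    field_simp
    ring
  rw [e] at hlim
  refine le_of_tendsto_of_tendsto hlim hL ?_
  have hr : ∀ᶠ r : ℝ in 𝓝[<] 1, r ∈ Ioo (0 : ℝ) 1 := Ioo_mem_nhdsLT one_pos
  filter_upwards [hr] with r hr
  rw [M1.Ninf_center _ hμ r hr.1 hr.2]
  have t1 := (A1.tendsto_nz _ hμ 0 r hr.1 (by norm_num) hr.2 (by simp)).2
  have t2 := (A1.tendsto_nz _ hμ (-r) 0 (by linarith [hr.1]) (by linarith [hr.2]) (by norm_num)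
    (by simp)).2
  have e12 : ∫ ω, (Ninf ω (Ioo (-r) 0) : ℝ) ∂(PP (mixL τ)) =
      ∫ ω, (Ninf ω (Ioo 0 r) : ℝ) ∂(PP (mixL τ)) := by
    refine tendsto_nhds_unique (t2.congr' ?_) t1
    filter_upwards [eventually_ge_atTop 1] with n hn
    exact mean_neg_side hτ0 hτ hn hr.1
  rw [e12]
  have h2 := lower_bd hτ0 hτ hr.1 hr.2 t1
  rw [int_hh τ r hr.1.le hr.2] at h2
  set E := ∫ ω, (Ninf ω (Ioo 0 r) : ℝ) ∂(PP (mixL τ)) with hE
  have h3 : 4 / Real.pi * (1 / 2 * Real.log ((1 + r) / (1 - r)) + τ ^ 2 * FP r - 20 * τ ^ 3 * r) ≤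
      4 / Real.pi * (Real.pi * E) := mul_le_mul_of_nonneg_left h2 (by positivity)
  have h4 : 4 / Real.pi * (Real.pi * E) = 4 * E := by field_simp
  have h5 : 4 / Real.pi * (1 / 2 * Real.log ((1 + r) / (1 - r)) + τ ^ 2 * FP r - 20 * τ ^ 3 * r) =
      2 / Real.pi * Real.log ((1 + r) / (1 - r)) + 4 / Real.pi * (τ ^ 2 * FP r - 20 * τ ^ 3 * r) := by
    ring
  linarith

lemma rhoW_one (n : ℕ) (x : ℝ) : 1 / Real.pi * rhoW (fun _ => 1) n x = rho n x := by
  unfold rhoW rho WA WB WC SA SB Kac764.SC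
  simp only [one_mul]
  rw [mul_div_assoc]

lemma gauss_side {n : ℕ} (hn : 1 ≤ n) {a b : ℝ} (hab : a < b) :
    ∫ ω, (nz (kac n ω) (Ioo a b) : ℝ) ∂(PP γ) = ∫ x in a..b, rho n x := by
  have h := kac_rice (s := fun _ => 1) one_ne_zero one_ne_zero hn hab
  simp only [one_mul] at h
  rw [h, ← intervalIntegral.integral_const_mul]
  simp only [rhoW_one]

theorem L_gauss {L : ℝ}
    (hL : Tendsto (fun r : ℝ => 2 * ∫ ω, (Ninf ω {x : ℝ | 0 < |x| ∧ |x| < r} : ℝ) ∂(PP γ)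
          - (2 / Real.pi) * Real.log ((1 + r) / (1 - r))) (𝓝[<] 1) (𝓝 L)) : L = 0 := by
  have hpi := Real.pi_pos
  refine tendsto_nhds_unique hL (tendsto_const_nhds.congr' ?_)
  have hr : ∀ᶠ r : ℝ in 𝓝[<] 1, r ∈ Ioo (0 : ℝ) 1 := Ioo_mem_nhdsLT one_pos
  filter_upwards [hr] with r hr
  rw [M1.Ninf_center _ std_gauss r hr.1 hr.2]
  have t1 := (A1.tendsto_nz _ std_gauss 0 r hr.1 (by norm_num) hr.2 (by simp)).2
  have t2 := (A1.tendsto_nz _ std_gauss (-r) 0 (by linarith [hr.1]) (by linarith [hr.2]) (by norm_num)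
    (by simp)).2
  have s1 : ∫ ω, (Ninf ω (Ioo 0 r) : ℝ) ∂(PP γ) =
      1 / (2 * Real.pi) * Real.log ((1 + r) / (1 - r)) := by
    rw [← H2.int_rhoInf r hr.1.le hr.2]
    refine tendsto_nhds_unique (t1.congr' ?_) (H2.tendsto_int_rho 0 r (by norm_num) hr.1.le hr.2)
    filter_upwards [eventually_ge_atTop 1] with n hn
    exact gauss_side hn hr.1
  have s2 : ∫ ω, (Ninf ω (Ioo (-r) 0) : ℝ) ∂(PP γ) =
      1 / (2 * Real.pi) * Real.log ((1 + r) / (1 - r)) := by
    rw [← s1]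
    refine tendsto_nhds_unique (t2.congr' ?_) t1
    filter_upwards [eventually_ge_atTop 1] with n hn
    rw [gauss_side hn hr.1, gauss_side hn (by linarith [hr.1])]
    have h := intervalIntegral.integral_comp_neg (a := 0) (b := r) (fun x => rho n x)
    simp only [H2.rho_neg, neg_zero] at h
    exact h.symm
  rw [s1, s2]
  field_simp
  ring

/-! ### multiplicity -/

/-- no double zeros, in finitely many coordinates -/
theorem no_double_fin (μ : Measure ℝ) [IsProbabilityMeasure μ] (hμ : ∀ x, μ {x} = 0) (n : ℕ) :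
    ∀ᵐ c ∂(Measure.pi fun _ : Fin (n + 1) => μ), ∀ x, D0 n (ext c) x = 0 → D1 n (ext c) x ≠ 0 := by
  have hm : Measurable (fun (ω : ℕ → ℝ) (k : Fin (n + 1)) => ω k) := by fun_prop
  have hB : MeasurableSet {ω : ℕ → ℝ | ∃ x : ℝ, D0 n ω x = 0 ∧ D1 n ω x = 0} := by
    have := meas_double (fun _ => 1) n
    simpa only [one_mul] using this
  have hD : ∀ (ω : ℕ → ℝ) (x : ℝ), D0 n (ext fun k : Fin (n + 1) => ω k) x = D0 n ω x ∧
      D1 n (ext fun k : Fin (n + 1) => ω k) x = D1 n ω x := by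
    intro ω x
    constructor
    · unfold D0
      refine Finset.sum_congr rfl fun j hj => ?_
      unfold ext
      rw [dif_pos (Finset.mem_range.1 hj)]
    · unfold D1
      refine Finset.sum_congr rfl fun j hj => ?_
      unfold ext
      rw [dif_pos (Finset.mem_range.1 hj)]
  rw [ae_iff, ← map_proj μ n]
  have e : {c : Fin (n + 1) → ℝ | ¬ ∀ x, D0 n (ext c) x = 0 → D1 n (ext c) x ≠ 0} =
      ext ⁻¹' {ω : ℕ → ℝ | ∃ x : ℝ, D0 n ω x = 0 ∧ D1 n ω x = 0} := by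
    ext c
    simp only [mem_setOf_eq, mem_preimage]
    push Not
    rfl
  rw [e, Measure.map_apply hm (ext_meas n hB)]
  have h0 := ae_no_double (s := fun _ => 1) n one_ne_zero μ hμ
  simp only [one_mul] at h0
  rw [ae_iff] at h0
  refine measure_mono_null ?_ h0
  intro ω hω
  obtain ⟨x, hx0, hx1⟩ := hω
  rw [(hD ω x).1] at hx0
  rw [(hD ω x).2] at hx1
  show ¬ ∀ x, D0 n ω x = 0 → D1 n ω x ≠ 0
  intro h
  exact h x hx0 hx1

theorem card_roots_eq {n : ℕ} (ω : ℕ → ℝ) (h : ∀ x, D0 n ω x = 0 → D1 n ω x ≠ 0) :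
    (kac n ω).roots.card = nz (kac n ω) univ := by
  have hp : kac n ω ≠ 0 := by
    intro h0
    have e0 : ∀ x, D0 n ω x = 0 := fun x => by rw [← eval_kac, h0, Polynomial.eval_zero]
    have e1 : D1 n ω 0 = 0 := by rw [← deriv_eval, h0]; simp
    exact h 0 (e0 0) e1
  have hnd : (kac n ω).roots.Nodup := by
    rw [Multiset.nodup_iff_count_le_one]
    intro x
    rw [Polynomial.count_roots]
    by_contra hlt
    push Not at hlt
    have := (Polynomial.one_lt_rootMultiplicity_iff_isRoot hp).1 hlt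
    have h1 : D0 n ω x = 0 := by rw [← eval_kac]; exact this.1
    have h2 : D1 n ω x = 0 := by rw [← deriv_eval]; exact this.2
    exact h x h1 h2
  rw [← Multiset.toFinset_card_of_nodup hnd]
  unfold nz
  rw [← Set.ncard_coe_finset]
  congr 1
  ext x
  simp [Polynomial.mem_roots']

/-- the number of real roots with multiplicity -/
noncomputable def RR (n : ℕ) (c : Fin (n + 1) → ℝ) : ℝ := ((kac n (ext c)).roots.card : ℝ)

theorem RR_ae (μ : Measure ℝ) [IsProbabilityMeasure μ] (hμ : ∀ x, μ {x} = 0) (n : ℕ) :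
    (fun c => (nz (kac n (ext c)) univ : ℝ)) =ᵐ[Measure.pi fun _ : Fin (n + 1) => μ] RR n := by
  filter_upwards [no_double_fin μ hμ n] with c hc
  unfold RR
  rw [card_roots_eq _ hc]

theorem RR_int (μ : Measure ℝ) [IsProbabilityMeasure μ] (hμ : ∀ x, μ {x} = 0) (n : ℕ) :
    Integrable (RR n) (Measure.pi fun _ : Fin (n + 1) => μ) ∧
    ∫ c, RR n c ∂(Measure.pi fun _ : Fin (n + 1) => μ) = ∫ ω, (nz (kac n ω) univ : ℝ) ∂(PP μ) := by
  have hm : Measurable (fun (ω : ℕ → ℝ) (k : Fin (n + 1)) => ω k) := by fun_prop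
  have h1 : Measurable fun ω : ℕ → ℝ => (nz (kac n ω) univ : ℝ) :=
    measurable_from_top.comp (H4.measurable_nz_set n univ (Or.inl rfl))
  have h2 : Measurable fun c : Fin (n + 1) → ℝ => (nz (kac n (ext c)) univ : ℝ) :=
    h1.comp (ext_meas n)
  constructor
  · refine Integrable.congr (Integrable.of_bound h2.aestronglyMeasurable (n : ℝ)
      (Eventually.of_forall fun c => ?_)) (RR_ae μ hμ n)
    rw [Real.norm_eq_abs, abs_of_nonneg (Nat.cast_nonneg _)]
    exact_mod_cast H4.nz_natDegree_kac n (ext c) univ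
  · rw [← integral_congr_ae (RR_ae μ hμ n), ← map_proj μ n, integral_map hm.aemeasurable
      h2.aestronglyMeasurable]
    refine integral_congr_ae (Eventually.of_forall fun ω => ?_)
    show (nz (kac n (ext fun k : Fin (n + 1) => ω k)) univ : ℝ) = _
    congr 2
    refine kac_congr fun j hj => ?_
    unfold ext
    rw [dif_pos hj]

end Pool.Agent.X134.KC
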