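import Pool.Agent.X134.KC.KacRice

/-!
# Scale mixtures of the Gaussian law
-/

set_option autoImplicit false
open MeasureTheory ProbabilityTheory Filter Topology Set
open scoped ENNReal NNReal
open Kac764

namespace Pool.Agent.X134.KC

/-- the law of a fair sign -/
noncomputable def coin : Measure ℝ :=
  (1 / 2 : ℝ≥0∞) • Measure.dirac 1 + (1 / 2 : ℝ≥0∞) • Measure.dirac (-1)

instance : IsProbabilityMeasure coin := by
  constructor
  unfold coin
  simp only [Measure.coe_add, Measure.coe_smul, Pi.add_apply, Pi.smul_apply, measure_univ,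
    smul_eq_mul, mul_one]
  exact ENNReal.add_halves 1 |> fun h => by simpa using h

lemma int_coin (f : ℝ → ℝ) : ∫ x, f x ∂coin = (f 1 + f (-1)) / 2 := by
  unfold coin
  have i1 : Integrable f ((1 / 2 : ℝ≥0∞) • Measure.dirac (1 : ℝ)) :=
    (integrable_dirac (by simp)).smul_measure (by simp)
  have i2 : Integrable f ((1 / 2 : ℝ≥0∞) • Measure.dirac (-1 : ℝ)) :=
    (integrable_dirac (by simp)).smul_measure (by simp)
  rw [integral_add_measure i1 i2, integral_smul_measure, integral_smul_measure, integral_dirac,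
    integral_dirac]
  simp
  ring

lemma coin_ae : ∀ᵐ x ∂coin, x = 1 ∨ x = -1 := by
  unfold coin
  rw [ae_iff]
  simp only [Measure.coe_add, Measure.coe_smul, Pi.add_apply, Pi.smul_apply, smul_eq_mul]
  rw [Measure.dirac_apply, Measure.dirac_apply]
  simp

noncomputable def sc (τ : ℝ) (p : ℝ × ℝ) : ℝ := Real.sqrt (1 + τ * p.1) * p.2

lemma sc_meas (τ : ℝ) : Measurable (sc τ) := by
  unfold sc
  fun_prop

/-- the mixture of the normal laws of variances `1 - τ` and `1 + τ` -/
noncomputable def mixL (τ : ℝ) : Measure ℝ := (coin.prod γ).map (sc τ)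

instance (τ : ℝ) : IsProbabilityMeasure (mixL τ) :=
  Measure.isProbabilityMeasure_map (sc_meas τ).aemeasurable

/-- extension of finite sequences by zero -/
noncomputable def ext {n : ℕ} (c : Fin (n + 1) → ℝ) (j : ℕ) : ℝ :=
  if h : j < n + 1 then c ⟨j, h⟩ else 0

lemma ext_meas (n : ℕ) : Measurable (ext (n := n)) := by
  rw [measurable_pi_iff]
  intro j
  unfold ext
  by_cases h : j < n + 1
  · simp only [h, dif_pos]
    exact measurable_pi_apply _
  · simp only [h, dif_neg, not_false_eq_true]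
    exact measurable_const

lemma kac_congr {n : ℕ} {ω ω' : ℕ → ℝ} (h : ∀ j < n + 1, ω j = ω' j) : kac n ω = kac n ω' := by
  unfold kac
  refine Finset.sum_congr rfl fun j hj => ?_
  rw [h j (Finset.mem_range.1 hj)]

/-- the number of zeros as a function of finitely many coefficients -/
noncomputable def FF (n : ℕ) (a b : ℝ) (c : Fin (n + 1) → ℝ) : ℝ := (nz (kac n (ext c)) (Ioo a b) : ℝ)

lemma FF_meas (n : ℕ) (a b : ℝ) : Measurable (FF n a b) := by
  have h : Measurable fun ω : ℕ → ℝ => (nz (kac n ω) (Ioo a b) : ℝ) :=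
    measurable_from_top.comp (J6.measurable_nz n a b)
  exact h.comp (ext_meas n)

lemma FF_bd (n : ℕ) (a b : ℝ) (c : Fin (n + 1) → ℝ) : ‖FF n a b c‖ ≤ n := by
  unfold FF
  rw [Real.norm_eq_abs, abs_of_nonneg (Nat.cast_nonneg _)]
  exact_mod_cast nz_le' n _ _

lemma FF_proj (n : ℕ) (a b : ℝ) (ω : ℕ → ℝ) :
    FF n a b (fun k => ω k) = (nz (kac n ω) (Ioo a b) : ℝ) := by
  unfold FF
  congr 2
  refine kac_congr fun j hj => ?_
  unfold ext
  rw [dif_pos hj]

lemma int_PP (μ : Measure ℝ) [IsProbabilityMeasure μ] (n : ℕ) (a b : ℝ) :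
    ∫ ω, (nz (kac n ω) (Ioo a b) : ℝ) ∂(PP μ) =
      ∫ c, FF n a b c ∂(Measure.pi fun _ : Fin (n + 1) => μ) := by
  rw [← map_proj μ n, integral_map (measurable_pi_lambda _ fun k =>
    measurable_pi_apply _).aemeasurable (FF_meas n a b).aestronglyMeasurable]
  exact integral_congr_ae (Eventually.of_forall fun ω => (FF_proj n a b ω).symm)

/-- the weights of a finite sequence of signs -/
noncomputable def wt (τ : ℝ) {n : ℕ} (η : Fin (n + 1) → ℝ) (j : ℕ) : ℝ := Real.sqrt (1 + τ * ext η j)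

/-- **The mean number of zeros for the mixture.** -/
theorem mix_formula {τ : ℝ} (hτ0 : 0 ≤ τ) (hτ1 : τ < 1) {n : ℕ} (hn : 1 ≤ n) {a b : ℝ} (hab : a < b) :
    ∫ ω, (nz (kac n ω) (Ioo a b) : ℝ) ∂(PP (mixL τ)) =
      ∫ η, (1 / Real.pi * ∫ x in a..b, rhoW (wt τ η) n x) ∂(Measure.pi fun _ : Fin (n + 1) => coin) := by
  rw [int_PP]
  have e1 : (Measure.pi fun _ : Fin (n + 1) => mixL τ) =
      (Measure.pi fun _ : Fin (n + 1) => coin.prod γ).map
        (fun (z : Fin (n + 1) → ℝ × ℝ) (j : Fin (n + 1)) => sc τ (z j)) := by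
    rw [Measure.pi_map_pi (fun _ => (sc_meas τ).aemeasurable)]
    rfl
  have hm1 : Measurable fun (z : Fin (n + 1) → ℝ × ℝ) (j : Fin (n + 1)) => sc τ (z j) :=
    measurable_pi_lambda _ fun j => (sc_meas τ).comp (measurable_pi_apply j)
  rw [e1, integral_map hm1.aemeasurable (FF_meas n a b).aestronglyMeasurable]
  have hmp := measurePreserving_arrowProdEquivProdArrow ℝ ℝ (Fin (n + 1)) (fun _ => coin) (fun _ => γ)
  have e2 := hmp.integral_comp (MeasurableEquiv.measurableEmbedding _)
    (fun p : (Fin (n + 1) → ℝ) × (Fin (n + 1) → ℝ) => FF n a b fun j => sc τ (p.1 j, p.2 j))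
  refine Eq.trans ?_ (e2.trans ?_)
  · rfl
  have hm2 : Measurable fun p : (Fin (n + 1) → ℝ) × (Fin (n + 1) → ℝ) =>
      FF n a b fun j => sc τ (p.1 j, p.2 j) := by
    refine (FF_meas n a b).comp (measurable_pi_lambda _ fun j => (sc_meas τ).comp ?_)
    fun_prop
  rw [integral_prod _ (Integrable.of_bound hm2.aestronglyMeasurable (n : ℝ)
    (Eventually.of_forall fun p => FF_bd n a b _))]
  have hcoin : ∀ᵐ η ∂(Measure.pi fun _ : Fin (n + 1) => coin), ∀ j, η j = 1 ∨ η j = -1 := by
    rw [ae_all_iff]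
    intro j
    exact (Measure.quasiMeasurePreserving_eval (μ := fun _ : Fin (n + 1) => coin) j).ae coin_ae
  refine integral_congr_ae ?_
  filter_upwards [hcoin] with η hη
  have hw : ∀ j < n + 1, wt τ η j ≠ 0 := by
    intro j hj
    unfold wt ext
    rw [dif_pos hj]
    have : 0 < 1 + τ * η ⟨j, hj⟩ := by
      rcases hη ⟨j, hj⟩ with h | h <;> rw [h] <;> linarith
    exact (Real.sqrt_pos.2 this).ne'
  rw [← kac_rice (hw 0 (by omega)) (hw 1 (by omega)) hn hab]
  have hF : Measurable fun g : Fin (n + 1) → ℝ => FF n a b fun j => sc τ (η j, g j) := by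
    refine (FF_meas n a b).comp (measurable_pi_lambda _ fun j => (sc_meas τ).comp ?_)
    fun_prop
  show ∫ g, FF n a b (fun j => sc τ (η j, g j)) ∂(Measure.pi fun _ : Fin (n + 1) => γ) = _
  rw [← map_proj γ n, integral_map (measurable_pi_lambda _ fun k =>
    measurable_pi_apply _).aemeasurable hF.aestronglyMeasurable]
  refine integral_congr_ae (Eventually.of_forall fun g => ?_)
  show FF n a b (fun j : Fin (n + 1) => sc τ (η j, g j)) = _
  unfold FF
  congr 2
  refine kac_congr fun j hj => ?_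
  unfold ext sc wt ext
  rw [dif_pos hj, dif_pos hj]

end Pool.Agent.X134.KC
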