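import Mathlib

/-!
# Riemann sums of functions of two neighbouring points
-/

set_option autoImplicit false
open MeasureTheory Filter Topology Set

namespace Pool.Agent.X134.KC

/-- the points of the equidistant partition -/
noncomputable def pt (a b : ℝ) (N i : ℕ) : ℝ := a + (b - a) * (i / N)

lemma pt_zero (a b : ℝ) (N : ℕ) : pt a b N 0 = a := by simp [pt]

lemma pt_last (a b : ℝ) {N : ℕ} (hN : 0 < N) : pt a b N N = b := by
  have : (N : ℝ) ≠ 0 := by positivity
  simp [pt, this]

lemma pt_succ_sub (a b : ℝ) (N i : ℕ) : pt a b N (i + 1) - pt a b N i = (b - a) / N := by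
  unfold pt
  push_cast
  ring

lemma pt_mono {a b : ℝ} (hab : a ≤ b) {N i j : ℕ} (hij : i ≤ j) : pt a b N i ≤ pt a b N j := by
  unfold pt
  have h1 : (i : ℝ) ≤ j := by exact_mod_cast hij
  have h2 : (i : ℝ) / N ≤ j / N := div_le_div_of_nonneg_right h1 (Nat.cast_nonneg _)
  have h3 : 0 ≤ b - a := by linarith
  nlinarith [mul_le_mul_of_nonneg_left h2 h3]

lemma pt_mem {a b : ℝ} (hab : a ≤ b) {N i : ℕ} (hN : 0 < N) (hi : i ≤ N) : pt a b N i ∈ Icc a b := by
  constructor
  · have := pt_mono hab (N := N) (Nat.zero_le i)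
    rwa [pt_zero] at this
  · have := pt_mono hab (N := N) hi
    rwa [pt_last a b hN] at this

/-- a continuous function of two variables is close to its diagonal values at neighbouring points -/
lemma near_diag {h : ℝ → ℝ → ℝ} {a b : ℝ} (hab : a < b)
    (hc : ContinuousOn (fun p : ℝ × ℝ => h p.1 p.2) (Icc a b ×ˢ Icc a b)) {ε : ℝ} (hε : 0 < ε) :
    ∀ᶠ N : ℕ in atTop, ∀ i < N, ∀ x ∈ Icc (pt a b N i) (pt a b N (i + 1)),
      |h (pt a b N i) (pt a b N (i + 1)) - h x x| < ε := by
  have hu := (isCompact_Icc.prod isCompact_Icc).uniformContinuousOn_of_continuous hc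
  rw [Metric.uniformContinuousOn_iff] at hu
  obtain ⟨δ, hδ, H⟩ := hu ε hε
  obtain ⟨N₀, hN₀⟩ := exists_nat_gt ((b - a) / δ)
  filter_upwards [eventually_ge_atTop (max N₀ 1)] with N hN i hi x hx
  have hN1 : 1 ≤ N := le_trans (le_max_right _ _) hN
  have hN0 : (0 : ℝ) < N := by exact_mod_cast hN1
  have hmesh : (b - a) / N < δ := by
    rw [div_lt_iff₀ hN0]
    have h1 : (N₀ : ℝ) ≤ N := by exact_mod_cast le_trans (le_max_left _ _) hN
    rw [div_lt_iff₀ hδ] at hN₀
    nlinarith
  have hp1 := pt_mem hab.le (N := N) (i := i) hN1 hi.le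
  have hp2 := pt_mem hab.le (N := N) (i := i + 1) hN1 hi
  have hd := pt_succ_sub a b N i
  have hx' : x ∈ Icc a b := ⟨hp1.1.trans hx.1, hx.2.trans hp2.2⟩
  have := H (pt a b N i, pt a b N (i + 1)) ⟨hp1, hp2⟩ (x, x) ⟨hx', hx'⟩ (by
    rw [Prod.dist_eq, max_lt_iff, Real.dist_eq, Real.dist_eq, abs_lt, abs_lt]
    simp only
    refine ⟨⟨?_, ?_⟩, ?_, ?_⟩ <;> linarith [hx.1, hx.2])
  rwa [Real.dist_eq] at this

/-- **Riemann sums.** -/
theorem riemann {h : ℝ → ℝ → ℝ} {a b : ℝ} (hab : a < b)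
    (hc : ContinuousOn (fun p : ℝ × ℝ => h p.1 p.2) (Icc a b ×ˢ Icc a b)) :
    Tendsto (fun N : ℕ => ∑ i ∈ Finset.range N, (b - a) / N * h (pt a b N i) (pt a b N (i + 1)))
      atTop (𝓝 (∫ x in a..b, h x x)) := by
  have hdc : ContinuousOn (fun x => h x x) (Icc a b) := by
    have : (fun x => h x x) = (fun p : ℝ × ℝ => h p.1 p.2) ∘ fun x => (x, x) := rfl
    rw [this]
    exact hc.comp (by fun_prop) fun x hx => ⟨hx, hx⟩
  rw [Metric.tendsto_nhds]
  intro ε hε
  have hba : 0 < b - a := by linarith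
  filter_upwards [near_diag hab hc (show 0 < ε / (2 * (b - a)) by positivity),
    eventually_ge_atTop 1] with N hN hN1
  have hN0 : (0 : ℝ) < N := by exact_mod_cast hN1
  have hint : ∀ i < N, IntervalIntegrable (fun x => h x x) volume (pt a b N i) (pt a b N (i + 1)) := by
    intro i hi
    apply ContinuousOn.intervalIntegrable
    rw [uIcc_of_le (pt_mono hab.le (Nat.le_succ i))]
    exact hdc.mono (Icc_subset_Icc (pt_mem hab.le hN1 hi.le).1 (pt_mem hab.le hN1 hi).2)
  have hsum := intervalIntegral.sum_integral_adjacent_intervals hint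
  rw [pt_zero, pt_last a b hN1] at hsum
  rw [Real.dist_eq, ← hsum, ← Finset.sum_sub_distrib]
  have hterm : ∀ i ∈ Finset.range N, |(b - a) / N * h (pt a b N i) (pt a b N (i + 1)) -
      ∫ x in (pt a b N i)..(pt a b N (i + 1)), h x x| ≤ ε / (2 * (b - a)) * ((b - a) / N) := by
    intro i hi
    have hi' := Finset.mem_range.1 hi
    have e1 : (b - a) / N * h (pt a b N i) (pt a b N (i + 1)) =
        ∫ x in (pt a b N i)..(pt a b N (i + 1)), h (pt a b N i) (pt a b N (i + 1)) := by
      rw [intervalIntegral.integral_const, pt_succ_sub, smul_eq_mul]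
    rw [e1, ← intervalIntegral.integral_sub intervalIntegrable_const (hint i hi')]
    have := intervalIntegral.norm_integral_le_of_norm_le_const (a := pt a b N i)
      (b := pt a b N (i + 1)) (f := fun x => h (pt a b N i) (pt a b N (i + 1)) - h x x)
      (C := ε / (2 * (b - a))) (by
        intro x hx
        rw [uIoc_of_le (pt_mono hab.le (Nat.le_succ i))] at hx
        rw [Real.norm_eq_abs]
        exact (hN i hi' x ⟨hx.1.le, hx.2⟩).le)
    rw [Real.norm_eq_abs, pt_succ_sub, abs_of_nonneg (by positivity : 0 ≤ (b - a) / N)] at this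
    exact this
  calc |∑ i ∈ Finset.range N, ((b - a) / N * h (pt a b N i) (pt a b N (i + 1)) -
      ∫ x in (pt a b N i)..(pt a b N (i + 1)), h x x)|
      ≤ ∑ i ∈ Finset.range N, |(b - a) / N * h (pt a b N i) (pt a b N (i + 1)) -
      ∫ x in (pt a b N i)..(pt a b N (i + 1)), h x x| := Finset.abs_sum_le_sum_abs _ _
    _ ≤ ∑ i ∈ Finset.range N, ε / (2 * (b - a)) * ((b - a) / N) := Finset.sum_le_sum hterm
    _ = ε / 2 := by
      rw [Finset.sum_const, Finset.card_range, nsmul_eq_mul]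
      field_simp
    _ < ε := by linarith

end Pool.Agent.X134.KC
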