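import Pool.Agent.X134.KC.Ineq
import Pool.Agent.X134.KC.Mix

/-!
# The expectation over the signs
-/

set_option autoImplicit false
open MeasureTheory ProbabilityTheory Filter Topology Set
open scoped ENNReal NNReal

namespace Pool.Agent.X134.KC

/-- the law of `m` independent fair signs -/
noncomputable abbrev PC (m : ℕ) : Measure (Fin m → ℝ) := Measure.pi fun _ : Fin m => coin

variable {m : ℕ}

lemma pc_ae : ∀ᵐ η ∂(PC m), ∀ j, η j = 1 ∨ η j = -1 := by
  rw [ae_all_iff]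
  intro j
  exact (Measure.quasiMeasurePreserving_eval (μ := fun _ : Fin m => coin) j).ae coin_ae

lemma int_of_bd {f : (Fin m → ℝ) → ℝ} (hf : Measurable f) (C : ℝ)
    (h : ∀ η : Fin m → ℝ, (∀ j, |η j| ≤ 1) → |f η| ≤ C) : Integrable f (PC m) := by
  refine Integrable.of_bound hf.aestronglyMeasurable C ?_
  filter_upwards [pc_ae] with η hη
  refine h η fun j => ?_
  rcases hη j with h | h <;> rw [h] <;> simp

/-- linear forms in the signs -/
noncomputable def lin (α : Fin m → ℝ) (η : Fin m → ℝ) : ℝ := ∑ j, α j * η j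

lemma lin_meas (α : Fin m → ℝ) : Measurable (lin α) := by
  unfold lin
  fun_prop

lemma lin_bd (α : Fin m → ℝ) (η : Fin m → ℝ) (h : ∀ j, |η j| ≤ 1) : |lin α η| ≤ ∑ j, |α j| := by
  unfold lin
  refine (Finset.abs_sum_le_sum_abs _ _).trans (Finset.sum_le_sum fun j _ => ?_)
  rw [abs_mul]
  exact mul_le_of_le_one_right (abs_nonneg _) (h j)

lemma lin_int (α : Fin m → ℝ) : Integrable (lin α) (PC m) :=
  int_of_bd (lin_meas α) _ (lin_bd α)

lemma lin2_int (α β : Fin m → ℝ) : Integrable (fun η => lin α η * lin β η) (PC m) := by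
  refine int_of_bd ((lin_meas α).mul (lin_meas β)) ((∑ j, |α j|) * ∑ j, |β j|) fun η h => ?_
  rw [abs_mul]
  exact mul_le_mul (lin_bd α η h) (lin_bd β η h) (abs_nonneg _)
    (Finset.sum_nonneg fun j _ => abs_nonneg _)

lemma int_coord (j : Fin m) : ∫ η, η j ∂(PC m) = 0 := by
  have h := integral_fintype_prod_eq_prod (𝕜 := ℝ) (ι := Fin m) (E := fun _ => ℝ)
    (fun i (x : ℝ) => if i = j then x else 1) (μ := fun _ => coin)
  have e1 : (fun η : Fin m → ℝ => ∏ i, (if i = j then η i else 1)) = fun η => η j := by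
    funext η
    rw [Finset.prod_ite_eq' Finset.univ j]
    simp
  rw [e1] at h
  rw [h]
  refine Finset.prod_eq_zero (Finset.mem_univ j) ?_
  simp only [if_true]
  rw [int_coin]
  norm_num

lemma int_coord2 (j k : Fin m) : ∫ η, η j * η k ∂(PC m) = if j = k then 1 else 0 := by
  have h := integral_fintype_prod_eq_prod (𝕜 := ℝ) (ι := Fin m) (E := fun _ => ℝ)
    (fun i (x : ℝ) => (if i = j then x else 1) * (if i = k then x else 1)) (μ := fun _ => coin)
  have e1 : (fun η : Fin m → ℝ => ∏ i, ((if i = j then η i else 1) * (if i = k then η i else 1))) =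
      fun η => η j * η k := by
    funext η
    rw [Finset.prod_mul_distrib, Finset.prod_ite_eq' Finset.univ j,
      Finset.prod_ite_eq' Finset.univ k]
    simp
  rw [e1] at h
  rw [h]
  by_cases hjk : j = k
  · subst hjk
    rw [if_pos rfl]
    refine Finset.prod_eq_one fun i _ => ?_
    by_cases hi : i = j
    · simp only [hi, if_true]
      rw [int_coin (fun x => x * x)]
      norm_num
    · simp [hi]
  · rw [if_neg hjk]
    refine Finset.prod_eq_zero (Finset.mem_univ j) ?_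
    simp only [if_true, hjk, if_false, mul_one]
    rw [int_coin (fun x => x)]
    norm_num

lemma lin_mean (α : Fin m → ℝ) : ∫ η, lin α η ∂(PC m) = 0 := by
  unfold lin
  rw [integral_finsetSum]
  · refine Finset.sum_eq_zero fun j _ => ?_
    rw [integral_const_mul, int_coord, mul_zero]
  · intro j _
    refine Integrable.const_mul ?_ _
    exact int_of_bd (measurable_pi_apply j) 1 fun η h => h j

lemma lin_cov (α β : Fin m → ℝ) : ∫ η, lin α η * lin β η ∂(PC m) = ∑ j, α j * β j := by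
  have hij : ∀ j k : Fin m, Integrable (fun η : Fin m → ℝ => α j * β k * (η j * η k)) (PC m) := by
    intro j k
    refine Integrable.const_mul ?_ _
    refine int_of_bd ((measurable_pi_apply j).mul (measurable_pi_apply k)) 1 fun η h => ?_
    rw [abs_mul]
    have := mul_le_mul (h j) (h k) (abs_nonneg _) zero_le_one
    linarith
  have e : (fun η : Fin m → ℝ => lin α η * lin β η) =
      fun η => ∑ j, ∑ k, α j * β k * (η j * η k) := by
    funext η
    unfold lin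
    rw [Finset.sum_mul_sum]
    refine Finset.sum_congr rfl fun j _ => Finset.sum_congr rfl fun k _ => ?_
    ring
  rw [e, integral_finsetSum _ fun j _ => integrable_finsetSum _ fun k _ => hij j k]
  refine Finset.sum_congr rfl fun j _ => ?_
  rw [integral_finsetSum _ fun k _ => hij j k]
  simp only [integral_const_mul, int_coord2]
  rw [Finset.sum_eq_single j]
  · simp
  · intro k _ hk
    rw [if_neg (Ne.symm hk), mul_zero]
  · intro h
    exact absurd (Finset.mem_univ j) h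

lemma int_sum7 {Ω : Type*} [MeasurableSpace Ω] {ν : Measure Ω} {f0 f1 f2 f3 f4 f5 f6 : Ω → ℝ}
    (h0 : Integrable f0 ν) (h1 : Integrable f1 ν) (h2 : Integrable f2 ν) (h3 : Integrable f3 ν)
    (h4 : Integrable f4 ν) (h5 : Integrable f5 ν) (h6 : Integrable f6 ν) :
    Integrable (fun x => f0 x + f1 x + f2 x + f3 x + f4 x + f5 x + f6 x) ν ∧
    ∫ x, (f0 x + f1 x + f2 x + f3 x + f4 x + f5 x + f6 x) ∂ν =
      ∫ x, f0 x ∂ν + ∫ x, f1 x ∂ν + ∫ x, f2 x ∂ν + ∫ x, f3 x ∂ν + ∫ x, f4 x ∂ν + ∫ x, f5 x ∂ν +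
        ∫ x, f6 x ∂ν := by
  have k1 : Integrable (fun x => f0 x + f1 x) ν := h0.add h1
  have k2 : Integrable (fun x => f0 x + f1 x + f2 x) ν := k1.add h2
  have k3 : Integrable (fun x => f0 x + f1 x + f2 x + f3 x) ν := k2.add h3
  have k4 : Integrable (fun x => f0 x + f1 x + f2 x + f3 x + f4 x) ν := k3.add h4
  have k5 : Integrable (fun x => f0 x + f1 x + f2 x + f3 x + f4 x + f5 x) ν := k4.add h5
  refine ⟨k5.add h6, ?_⟩
  rw [integral_add k5 h6, integral_add k4 h5, integral_add k3 h4, integral_add k2 h3,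
    integral_add k1 h2, integral_add h0 h1]

/-- **The expectation over the signs.** -/
theorem second {p d : Fin m → ℝ} (hp : ∀ j, 0 ≤ p j) (hsum : ∑ j, p j = 1)
    {V : ℝ} (hV : 0 < V) (hVd : ∑ j, p j * d j ^ 2 = V)
    {τ : ℝ} (hτ0 : 0 ≤ τ) (hτ : τ ≤ 1 / 8) :
    1 + τ ^ 2 * (3 / 8 * (∑ j, p j ^ 2) - 3 / 4 * ((∑ j, p j ^ 2 * d j ^ 2) / V) -
        1 / 8 * ((∑ j, p j ^ 2 * d j ^ 4) / V ^ 2)) -
      10 * τ ^ 3 * ((∑ j, p j ^ 2) + (∑ j, p j ^ 2 * d j ^ 4) / V ^ 2) ≤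
      ∫ η, Real.sqrt ((1 + τ * lin p η) * (1 + τ * (lin (fun j => p j * d j ^ 2) η / V)) -
        τ ^ 2 * (lin (fun j => p j * d j) η ^ 2 / V)) / (1 + τ * lin p η) ∂(PC m) := by
  obtain ⟨αA, hαA⟩ : ∃ αA : Fin m → ℝ, αA = fun j => p j * d j ^ 2 / V := ⟨_, rfl⟩
  have hA : ∀ η, lin (fun j => p j * d j ^ 2) η / V = lin αA η := by
    intro η
    rw [hαA]
    unfold lin
    rw [Finset.sum_div]
    refine Finset.sum_congr rfl fun j _ => ?_
    ring
  obtain ⟨αb, hαb⟩ : ∃ αb : Fin m → ℝ, αb = fun j => p j * d j := ⟨_, rfl⟩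
  simp only [hA, ← hαb]
  -- bounds
  have hc1 : ∀ η : Fin m → ℝ, (∀ j, |η j| ≤ 1) → |lin p η| ≤ 1 := by
    intro η h
    refine (lin_bd p η h).trans ?_
    rw [← hsum]
    exact Finset.sum_le_sum fun j _ => (abs_of_nonneg (hp j)).le
  have hA1 : ∀ η : Fin m → ℝ, (∀ j, |η j| ≤ 1) → |lin αA η| ≤ 1 := by
    intro η h
    refine (lin_bd αA η h).trans ?_
    have e1 : ∑ j, |αA j| = (∑ j, p j * d j ^ 2) / V := by
      rw [Finset.sum_div]
      refine Finset.sum_congr rfl fun j _ => ?_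
      rw [hαA]
      exact abs_of_nonneg (div_nonneg (mul_nonneg (hp j) (sq_nonneg _)) hV.le)
    rw [e1, hVd, div_self hV.ne']
  have hB0 : ∀ η : Fin m → ℝ, 0 ≤ lin αb η ^ 2 / V := fun η => div_nonneg (sq_nonneg _) hV.le
  have hB1 : ∀ η : Fin m → ℝ, (∀ j, |η j| ≤ 1) → lin αb η ^ 2 / V ≤ 1 := by
    intro η h
    rw [div_le_one hV, ← hVd]
    have h1 := Finset.sum_mul_sq_le_sq_mul_sq Finset.univ
      (fun j => Real.sqrt (p j) * η j) (fun j => Real.sqrt (p j) * d j)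
    have e1 : ∑ j, Real.sqrt (p j) * η j * (Real.sqrt (p j) * d j) = lin αb η := by
      unfold lin
      refine Finset.sum_congr rfl fun j _ => ?_
      rw [hαb]
      have := Real.mul_self_sqrt (hp j)
      calc Real.sqrt (p j) * η j * (Real.sqrt (p j) * d j) =
          (Real.sqrt (p j) * Real.sqrt (p j)) * (d j * η j) := by ring
        _ = p j * d j * η j := by rw [this]; ring
    have e2 : ∑ j, (Real.sqrt (p j) * d j) ^ 2 = ∑ j, p j * d j ^ 2 := by
      refine Finset.sum_congr rfl fun j _ => ?_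
      rw [mul_pow, Real.sq_sqrt (hp j)]
    have e3 : ∑ j, (Real.sqrt (p j) * η j) ^ 2 ≤ 1 := by
      rw [← hsum]
      refine Finset.sum_le_sum fun j _ => ?_
      rw [mul_pow, Real.sq_sqrt (hp j)]
      have : η j ^ 2 ≤ 1 := by
        rw [← sq_abs]
        have := h j
        nlinarith [abs_nonneg (η j)]
      exact mul_le_of_le_one_right (hp j) this
    rw [e1, e2] at h1
    have h2 : 0 ≤ ∑ j, p j * d j ^ 2 := by rw [hVd]; exact hV.le
    calc lin αb η ^ 2 ≤ _ := h1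
      _ ≤ 1 * ∑ j, p j * d j ^ 2 := mul_le_mul_of_nonneg_right e3 h2
      _ = _ := one_mul _
  -- the lower bound
  obtain ⟨G, hG⟩ : ∃ G : (Fin m → ℝ) → ℝ, G = fun η =>
    1 + τ / 2 * lin αA η + (-(τ / 2)) * lin p η +
      (-(τ ^ 2 / 2) + τ ^ 2 / 4 + 10 * τ ^ 3) * (lin p η * lin αA η) +
      (τ ^ 2 / 2 - τ ^ 2 / 8 - 10 * τ ^ 3) * (lin p η * lin p η) +
      (-(τ ^ 2 / 2) - 5 * τ ^ 3) / V * (lin αb η * lin αb η) +
      (-(τ ^ 2 / 8) - 5 * τ ^ 3) * (lin αA η * lin αA η) := ⟨_, rfl⟩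
  have i0 : Integrable (fun _ : Fin m → ℝ => (1 : ℝ)) (PC m) := integrable_const _
  have i1 := (lin_int αA).const_mul (τ / 2)
  have i2 := (lin_int p).const_mul (-(τ / 2))
  have i3 := (lin2_int p αA).const_mul (-(τ ^ 2 / 2) + τ ^ 2 / 4 + 10 * τ ^ 3)
  have i4 := (lin2_int p p).const_mul (τ ^ 2 / 2 - τ ^ 2 / 8 - 10 * τ ^ 3)
  have i5 := (lin2_int αb αb).const_mul ((-(τ ^ 2 / 2) - 5 * τ ^ 3) / V)
  have i6 := (lin2_int αA αA).const_mul (-(τ ^ 2 / 8) - 5 * τ ^ 3)
  have hGint : ∫ η, G η ∂(PC m) = 1 +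
      (-(τ ^ 2 / 2) + τ ^ 2 / 4 + 10 * τ ^ 3) * (∑ j, p j * αA j) +
      (τ ^ 2 / 2 - τ ^ 2 / 8 - 10 * τ ^ 3) * (∑ j, p j * p j) +
      (-(τ ^ 2 / 2) - 5 * τ ^ 3) / V * (∑ j, αb j * αb j) +
      (-(τ ^ 2 / 8) - 5 * τ ^ 3) * (∑ j, αA j * αA j) := by
    rw [hG]
    refine (int_sum7 i0 i1 i2 i3 i4 i5 i6).2.trans ?_
    simp only [integral_const_mul, lin_mean, lin_cov, integral_const, probReal_univ, smul_eq_mul]
    ring
  have hGi : Integrable G (PC m) := by
    rw [hG]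
    exact (int_sum7 i0 i1 i2 i3 i4 i5 i6).1
  have hs1 : ∑ j, p j * αA j = (∑ j, p j ^ 2 * d j ^ 2) / V := by
    rw [Finset.sum_div]
    refine Finset.sum_congr rfl fun j _ => ?_
    rw [hαA]; ring
  have hs2 : ∑ j, p j * p j = ∑ j, p j ^ 2 := Finset.sum_congr rfl fun j _ => by ring
  have hs3 : ∑ j, αb j * αb j = ∑ j, p j ^ 2 * d j ^ 2 :=
    Finset.sum_congr rfl fun j _ => by rw [hαb]; ring
  have hs4 : ∑ j, αA j * αA j = (∑ j, p j ^ 2 * d j ^ 4) / V ^ 2 := by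
    rw [Finset.sum_div]
    refine Finset.sum_congr rfl fun j _ => ?_
    rw [hαA]
    field_simp
  rw [hs1, hs2, hs3, hs4] at hGint
  obtain ⟨S0, hS0⟩ : ∃ S0, S0 = ∑ j, p j ^ 2 := ⟨_, rfl⟩
  obtain ⟨S2, hS2⟩ : ∃ S2, S2 = (∑ j, p j ^ 2 * d j ^ 2) / V := ⟨_, rfl⟩
  obtain ⟨S4, hS4⟩ : ∃ S4, S4 = (∑ j, p j ^ 2 * d j ^ 4) / V ^ 2 := ⟨_, rfl⟩
  have e5 : (-(τ ^ 2 / 2) - 5 * τ ^ 3) / V * (∑ j, p j ^ 2 * d j ^ 2) =
      (-(τ ^ 2 / 2) - 5 * τ ^ 3) * ((∑ j, p j ^ 2 * d j ^ 2) / V) := by ring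
  rw [e5, ← hS0, ← hS2, ← hS4] at hGint
  rw [← hS0, ← hS2, ← hS4]
  have p0 : 0 ≤ S0 := by rw [hS0]; exact Finset.sum_nonneg fun j _ => sq_nonneg _
  have p2 : 0 ≤ S2 := by
    rw [hS2]; exact div_nonneg (Finset.sum_nonneg fun j _ => by positivity) hV.le
  have p4 : 0 ≤ S4 := by
    rw [hS4]; exact div_nonneg (Finset.sum_nonneg fun j _ => by positivity) (by positivity)
  have t3 : 0 ≤ τ ^ 3 := by positivity
  refine le_trans ?_ (integral_mono_ae hGi ?_ ?_)
  · rw [hGint]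
    nlinarith [mul_nonneg t3 p0, mul_nonneg t3 p2, mul_nonneg t3 p4]
  · refine int_of_bd ?_ 2 fun η h => ?_
    · have m1 := lin_meas p
      have m2 := lin_meas αA
      have m3 := lin_meas αb
      exact ((((measurable_const.add (m1.const_mul τ)).mul (measurable_const.add (m2.const_mul τ))).sub
        (((m3.pow_const 2).div_const V).const_mul (τ ^ 2))).sqrt).div
          (measurable_const.add (m1.const_mul τ))
    · obtain ⟨c1, c2⟩ := abs_le.1 (hc1 η h)
      obtain ⟨a1, a2⟩ := abs_le.1 (hA1 η h)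
      have b0 := hB0 η
      have hd : 7 / 8 ≤ 1 + τ * lin p η := by nlinarith
      rw [abs_of_nonneg (div_nonneg (Real.sqrt_nonneg _) (by linarith)),
        div_le_iff₀ (by linarith)]
      refine (Real.sqrt_le_left (by linarith)).2 ?_
      have u1 : 1 + τ * lin p η ≤ 9 / 8 := by nlinarith
      have u2 : 1 + τ * lin αA η ≤ 9 / 8 := by nlinarith
      have u3 : 0 ≤ 1 + τ * lin αA η := by nlinarith
      have u4 : (1 + τ * lin p η) * (1 + τ * lin αA η) ≤ 9 / 8 * (9 / 8) :=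
        mul_le_mul u1 u2 u3 (by norm_num)
      have u5 : 0 ≤ τ ^ 2 * (lin αb η ^ 2 / V) := by positivity
      nlinarith
  · filter_upwards [pc_ae] with η hη
    have h : ∀ j, |η j| ≤ 1 := fun j => by
      rcases hη j with h | h <;> rw [h] <;> simp
    refine le_trans (le_of_eq ?_) (core hτ0 hτ (hc1 η h) (hA1 η h) (hB0 η) (hB1 η h))
    rw [hG]
    ring

end Pool.Agent.X134.KC
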