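import Pool.Agent.X134.KC.Angle
import Pool.Agent.Helper764.KacDefs
import Pool.Agent.TH322.SQ.Ang

/-!
# The probability of a change of sign
-/

set_option autoImplicit false
open MeasureTheory ProbabilityTheory Filter Topology Set
open scoped ENNReal NNReal RealInnerProductSpace
open Kac764

namespace Pool.Agent.X134.KC

/-- The first `n + 1` coordinates of an i.i.d. sequence form an i.i.d. vector. -/
theorem map_proj (μ : Measure ℝ) [IsProbabilityMeasure μ] (n : ℕ) :
    (Measure.infinitePi (fun _ : ℕ => μ)).map (fun (ω : ℕ → ℝ) (k : Fin (n + 1)) => ω k)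
      = Measure.pi (fun _ : Fin (n + 1) => μ) := by
  symm
  refine Measure.pi_eq fun s hs => ?_
  have hm : Measurable (fun (ω : ℕ → ℝ) (k : Fin (n + 1)) => ω k) := by
    fun_prop
  rw [Measure.map_apply hm (MeasurableSet.univ_pi hs)]
  have : (fun (ω : ℕ → ℝ) (k : Fin (n + 1)) => ω k) ⁻¹' (Set.univ.pi s)
      = Set.pi ((Finset.range (n + 1) : Finset ℕ) : Set ℕ)
          (fun k : ℕ => if h : k < n + 1 then s ⟨k, h⟩ else Set.univ) := by
    ext ω
    simp only [Set.mem_preimage, Set.mem_pi, Set.mem_univ, true_implies, Finset.coe_range,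
      Set.mem_Iio]
    constructor
    · intro h k hk
      rw [dif_pos hk]
      exact h ⟨k, hk⟩
    · intro h k
      have := h k k.2
      rw [dif_pos k.2] at this
      exact this
  rw [this, Measure.infinitePi_pi]
  · rw [Finset.prod_range]
    refine Finset.prod_congr rfl fun k _ => ?_
    rw [dif_pos k.2]
  · intro k hk
    have hk' : k < n + 1 := Finset.mem_range.1 hk
    rw [dif_pos hk']
    exact hs _

/-- the standard Gaussian law -/
noncomputable abbrev γ : Measure ℝ := gaussianReal 0 1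

/-- the space of the coefficients -/
abbrev EE (n : ℕ) := EuclideanSpace ℝ (Fin (n + 1))

noncomputable def av (s : ℕ → ℝ) (n : ℕ) (x : ℝ) : EE n :=
  WithLp.toLp 2 (fun j : Fin (n + 1) => s j * x ^ (j : ℕ))

noncomputable def toE (n : ℕ) (g : ℕ → ℝ) : EE n := WithLp.toLp 2 (fun j : Fin (n + 1) => g j)

lemma toE_meas (n : ℕ) : Measurable (toE n) := by
  unfold toE
  exact (WithLp.measurable_toLp 2 _).comp (by fun_prop)

lemma map_toE (n : ℕ) : (PP γ).map (toE n) = stdGaussian (EE n) := by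
  have h1 := map_proj γ n
  have h2 := map_pi_eq_stdGaussian (ι := Fin (n + 1))
  rw [← h2, ← h1, Measure.map_map (WithLp.measurable_toLp 2 _) (by fun_prop)]
  rfl

lemma inner_av (s : ℕ → ℝ) (n : ℕ) (x : ℝ) (g : ℕ → ℝ) :
    ⟪av s n x, toE n g⟫ = D0 n (fun j => s j * g j) x := by
  unfold av toE D0
  rw [PiLp.inner_apply, Finset.sum_range]
  refine Finset.sum_congr rfl fun j _ => ?_
  simp only [RCLike.inner_apply, conj_trivial]
  ring

lemma inner_av_av (s : ℕ → ℝ) (n : ℕ) (x y : ℝ) : ⟪av s n x, av s n y⟫ = WI s n x y := by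
  unfold av WI
  rw [PiLp.inner_apply, Finset.sum_range]
  refine Finset.sum_congr rfl fun j _ => ?_
  simp only [RCLike.inner_apply, conj_trivial]
  ring

lemma norm_av (s : ℕ → ℝ) (n : ℕ) (x : ℝ) : ‖av s n x‖ = Real.sqrt (WA s n x) := by
  rw [EuclideanSpace.norm_eq]
  congr 1
  unfold WA av
  rw [Finset.sum_range]
  refine Finset.sum_congr rfl fun j _ => ?_
  rw [Real.norm_eq_abs, sq_abs]

lemma WG_pos {s : ℕ → ℝ} (h0 : s 0 ≠ 0) (h1 : s 1 ≠ 0) {n : ℕ} (hn : 1 ≤ n) (x y : ℝ) :
    0 < WG s n x y := by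
  unfold WG
  have hq : Q 0 1 x y = 1 := by simp [Q]
  have m0 : 0 ∈ Finset.range (n + 1) := Finset.mem_range.2 (by omega)
  have m1 : 1 ∈ Finset.range (n + 1) := Finset.mem_range.2 (by omega)
  have e1 : (s 0 * s 1) ^ 2 * Q 0 1 x y ^ 2 ≤
      ∑ k ∈ Finset.range (n + 1), (s 0 * s k) ^ 2 * Q 0 k x y ^ 2 :=
    Finset.single_le_sum (f := fun k => (s 0 * s k) ^ 2 * Q 0 k x y ^ 2)
      (fun k _ => by positivity) m1
  have e2 : ∑ k ∈ Finset.range (n + 1), (s 0 * s k) ^ 2 * Q 0 k x y ^ 2 ≤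
      ∑ j ∈ Finset.range (n + 1), ∑ k ∈ Finset.range (n + 1), (s j * s k) ^ 2 * Q j k x y ^ 2 :=
    Finset.single_le_sum (f := fun j => ∑ k ∈ Finset.range (n + 1), (s j * s k) ^ 2 * Q j k x y ^ 2)
      (fun j _ => Finset.sum_nonneg fun k _ => by positivity) m0
  have e3 : 0 < (s 0 * s 1) ^ 2 * Q 0 1 x y ^ 2 := by
    rw [hq]
    positivity
  linarith

/-- **The probability of a change of sign.** -/
theorem sign_prob {s : ℕ → ℝ} (h0 : s 0 ≠ 0) (h1 : s 1 ≠ 0) {n : ℕ} (hn : 1 ≤ n) {x y : ℝ}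
    (hxy : x < y) :
    (PP γ) {g | D0 n (fun j => s j * g j) x * D0 n (fun j => s j * g j) y < 0} =
      ENNReal.ofReal (ang s n x y / Real.pi) := by
  have hx : 0 < ‖av s n x‖ := by
    rw [norm_av]
    exact Real.sqrt_pos.2 (WA_pos h0 n x)
  have hy : 0 < ‖av s n y‖ := by
    rw [norm_av]
    exact Real.sqrt_pos.2 (WA_pos h0 n y)
  have hk : ⟪(‖av s n x‖⁻¹) • av s n x, (‖av s n y‖⁻¹) • av s n y⟫ = kap s n x y := by
    rw [inner_smul_left, inner_smul_right, inner_av_av, norm_av, norm_av]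
    unfold kap
    simp only [conj_trivial]
    have := Real.sqrt_pos.2 (WA_pos h0 n x)
    have := Real.sqrt_pos.2 (WA_pos h0 n y)
    field_simp
  have hu : ‖(‖av s n x‖⁻¹) • av s n x‖ = 1 := by
    rw [norm_smul, norm_inv, norm_norm, inv_mul_cancel₀ hx.ne']
  have hv : ‖(‖av s n y‖⁻¹) • av s n y‖ = 1 := by
    rw [norm_smul, norm_inv, norm_norm, inv_mul_cancel₀ hy.ne']
  have hsq : 0 < 1 - kap s n x y ^ 2 := by
    rw [kap_sq h0 n]
    have h2 : 0 < HH s n x y := by
      unfold HH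
      have e1 := Real.sqrt_pos.2 (WG_pos h0 h1 hn x y)
      have e2 := Real.sqrt_pos.2 (WA_pos h0 n x)
      have e3 := Real.sqrt_pos.2 (WA_pos h0 n y)
      positivity
    have h3 : 0 < y - x := by linarith
    positivity
  have hne1 : (‖av s n y‖⁻¹) • av s n y ≠ (‖av s n x‖⁻¹) • av s n x := by
    intro h
    rw [h, real_inner_self_eq_norm_sq, hu] at hk
    rw [← hk] at hsq
    norm_num at hsq
  have hne2 : (‖av s n y‖⁻¹) • av s n y ≠ -((‖av s n x‖⁻¹) • av s n x) := by
    intro h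
    rw [h, inner_neg_right, real_inner_self_eq_norm_sq, hu] at hk
    rw [← hk] at hsq
    norm_num at hsq
  have key := Pool.Agent.TH322.SQ.prob_sign _ _ hu hv hne1 hne2
  rw [hk, ← map_toE n, Measure.map_apply (toE_meas n)] at key
  · rw [ang, ← key]
    congr 1
    ext g
    simp only [mem_setOf_eq, mem_preimage]
    rw [inner_smul_left, inner_smul_left, inner_av, inner_av]
    simp only [conj_trivial]
    have e : ‖av s n x‖⁻¹ * D0 n (fun j => s j * g j) x *
        (‖av s n y‖⁻¹ * D0 n (fun j => s j * g j) y) =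
        (‖av s n x‖⁻¹ * ‖av s n y‖⁻¹) *
          (D0 n (fun j => s j * g j) x * D0 n (fun j => s j * g j) y) := by ring
    rw [e]
    have hp : 0 < ‖av s n x‖⁻¹ * ‖av s n y‖⁻¹ := by positivity
    constructor
    · intro h
      exact mul_neg_of_pos_of_neg hp h
    · intro h
      exact (pos_iff_neg_of_mul_neg h).1 hp
  · exact measurableSet_lt (by fun_prop) measurable_const

end Pool.Agent.X134.KC
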